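import Pool.Agent.Helper35.SD.Defs

/-!
# Definable categories given by pp pairs and their lattices of pp conditions (definitions)

`PP S` is the type of the pp conditions in one free variable over the ring `S` (for left
modules), and `φ.Sat x` says that the element `x` of a module satisfies `φ`.
-/

namespace Pool.Agent.Helper56.SDD

open Pool.Agent.H35SD

universe u v

/-- The module `M` belongs to the definable category given by the set `X` of pairs of pp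
conditions: `φ(M) ⊆ ψ(M)` for all pairs `(φ, ψ)` in `X`. -/
def InX {S : Type u} [Ring S] (X : Set (PP S × PP S)) (M : Type v) [AddCommGroup M]
    [Module S M] : Prop :=
  ∀ σ ∈ X, ∀ x : M, σ.1.Sat x → σ.2.Sat x

/-- `φ ≤ ψ` in the lattice `pp(X)`: `φ(M) ⊆ ψ(M)` for all modules `M` in the category. -/
def Le {S : Type u} [Ring S] (X : Set (PP S × PP S)) (φ ψ : PP S) : Prop :=
  ∀ (M : Type u) [AddCommGroup M] [Module S M], InX X M → ∀ x : M, φ.Sat x → ψ.Sat x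

/-- `φ < ψ` in `pp(X)`. -/
def Lt {S : Type u} [Ring S] (X : Set (PP S × PP S)) (φ ψ : PP S) : Prop :=
  Le X φ ψ ∧ ¬ Le X ψ φ

/-- `θ ≤ θ₁ + θ₂` in `pp(X)`: `θ(M) ⊆ θ₁(M) + θ₂(M)` for all `M` in the category. -/
def LeSum {S : Type u} [Ring S] (X : Set (PP S × PP S)) (θ θ₁ θ₂ : PP S) : Prop :=
  ∀ (M : Type u) [AddCommGroup M] [Module S M], InX X M → ∀ x : M, θ.Sat x →
    ∃ p q : M, θ₁.Sat p ∧ θ₂.Sat q ∧ p + q = x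

/-- `θ₁ ∧ θ₂ ≤ θ` in `pp(X)`: `θ₁(M) ∩ θ₂(M) ⊆ θ(M)` for all `M` in the category. -/
def InfLe {S : Type u} [Ring S] (X : Set (PP S × PP S)) (θ₁ θ₂ θ : PP S) : Prop :=
  ∀ (M : Type u) [AddCommGroup M] [Module S M], InX X M → ∀ x : M, θ₁.Sat x → θ₂.Sat x →
    θ.Sat x

/-- A wide subposet of `pp(X)` (with at least two comparable elements). -/
def IsWideX {S : Type u} [Ring S] (X : Set (PP S × PP S)) (P : Set (PP S)) : Prop :=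
  (∃ φ ∈ P, ∃ ψ ∈ P, Lt X ψ φ) ∧
  ∀ φ ∈ P, ∀ ψ ∈ P, Lt X ψ φ →
    ∃ θ₁ ∈ P, ∃ θ₂ ∈ P, ∃ θ₁₁ ∈ P, ∃ θ₁₂ ∈ P, ∃ θ₂₁ ∈ P, ∃ θ₂₂ ∈ P,
      (¬ Le X θ₁ θ₂ ∧ ¬ Le X θ₂ θ₁) ∧
      (Lt X ψ θ₁ ∧ Lt X θ₁ φ) ∧ (Lt X ψ θ₂ ∧ Lt X θ₂ φ) ∧
      (LeSum X θ₁₁ θ₁ θ₂ ∧ Lt X θ₁ θ₁₁ ∧ Lt X θ₁₂ θ₁ ∧ InfLe X θ₁ θ₂ θ₁₂) ∧
      (LeSum X θ₂₁ θ₁ θ₂ ∧ Lt X θ₂ θ₂₁ ∧ Lt X θ₂₂ θ₂ ∧ InfLe X θ₁ θ₂ θ₂₂)

/-- `L₀` is a sublattice of `pp(X)`: with `a` and `b` it contains conditions equivalent to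
`a ∧ b` and to `a + b`. -/
def IsSublattice {S : Type u} [Ring S] (X : Set (PP S × PP S)) (L₀ : Set (PP S)) : Prop :=
  ∀ a ∈ L₀, ∀ b ∈ L₀, (∃ c ∈ L₀, Le X c a ∧ Le X c b ∧ InfLe X a b c) ∧
    ∃ c ∈ L₀, Le X a c ∧ Le X b c ∧ LeSum X c a b

/-- The `n`-distributive law at `x` and `y_0, …, y_n` in the modular lattice `pp(X)`:
`x ∧ (y_0 + ⋯ + y_n) = ∑_i (x ∧ ∑_{j ≠ i} y_j)` (the inequality `≤`, as the other one always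
holds). For `n = 1` this is the distributive law `x ∧ (y_0 + y_1) = (x ∧ y_1) + (x ∧ y_0)`. -/
def DistribAt {S : Type u} [Ring S] (X : Set (PP S × PP S)) (n : ℕ) (x : PP S)
    (y : Fin (n + 1) → PP S) : Prop :=
  ∀ (M : Type u) [AddCommGroup M] [Module S M], InX X M → ∀ p : Fin (n + 1) → M,
    (∀ j, (y j).Sat (p j)) → x.Sat (∑ j, p j) →
      ∃ r : Fin (n + 1) → Fin (n + 1) → M, (∀ i j, (y j).Sat (r i j)) ∧ (∀ i, r i i = 0) ∧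
        (∀ i, x.Sat (∑ j, r i j)) ∧ ∑ i, ∑ j, r i j = ∑ j, p j

end Pool.Agent.Helper56.SDD
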