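import Pool.Agent.Helper35.SD.Main

/-!
# pp conditions and finitely generated submodules of the sum of the finitely presented modules
-/

namespace Pool.Agent.Helper56.SDD

open Pool.Agent.H35SD MulOpposite

universe u v w

section sat

variable {S : Type u} [Ring S] {M : Type v} [AddCommGroup M] [Module S M]

theorem sat_zero (φ : PP S) : φ.Sat (0 : M) := ⟨0, fun j => by simp⟩

theorem sat_add {φ : PP S} {x y : M} (hx : φ.Sat x) (hy : φ.Sat y) : φ.Sat (x + y) := by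
  obtain ⟨a, ha⟩ := hx
  obtain ⟨b, hb⟩ := hy
  refine ⟨a + b, fun j => ?_⟩
  have h1 : φ.r j • (x + y) + ∑ l, φ.s j l • (a + b) l =
      (φ.r j • x + ∑ l, φ.s j l • a l) + (φ.r j • y + ∑ l, φ.s j l • b l) := by
    simp only [Pi.add_apply, smul_add, Finset.sum_add_distrib]
    abel
  rw [h1, ha, hb, add_zero]

theorem sat_neg {φ : PP S} {x : M} (hx : φ.Sat x) : φ.Sat (-x) := by
  obtain ⟨a, ha⟩ := hx
  refine ⟨-a, fun j => ?_⟩
  have h1 : φ.r j • (-x) + ∑ l, φ.s j l • (-a) l = -(φ.r j • x + ∑ l, φ.s j l • a l) := by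
    simp only [Pi.neg_apply, smul_neg, Finset.sum_neg_distrib]
    abel
  rw [h1, ha, neg_zero]

theorem sat_sub {φ : PP S} {x y : M} (hx : φ.Sat x) (hy : φ.Sat y) : φ.Sat (x - y) := by
  rw [sub_eq_add_neg]
  exact sat_add hx (sat_neg hy)

theorem sat_inf {φ ψ : PP S} {x : M} : (φ.inf ψ).Sat x ↔ φ.Sat x ∧ ψ.Sat x := by
  constructor
  · rintro ⟨y, hy⟩
    constructor
    · refine ⟨fun l => y (Fin.castAdd _ l), fun j => ?_⟩
      have := hy (Fin.castAdd _ j)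
      change Fin.append φ.r ψ.r (Fin.castAdd _ j) • x
        + ∑ l : Fin (φ.m + ψ.m), (φ.inf ψ).s (Fin.castAdd _ j) l • y l = 0 at this
      rw [Fin.sum_univ_add] at this
      simpa [PP.inf, Fin.append_left, Fin.append_right] using this
    · refine ⟨fun l => y (Fin.natAdd _ l), fun j => ?_⟩
      have := hy (Fin.natAdd _ j)
      change Fin.append φ.r ψ.r (Fin.natAdd _ j) • x
        + ∑ l : Fin (φ.m + ψ.m), (φ.inf ψ).s (Fin.natAdd _ j) l • y l = 0 at this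
      rw [Fin.sum_univ_add] at this
      simpa [PP.inf, Fin.append_left, Fin.append_right] using this
  · rintro ⟨⟨y, hy⟩, ⟨z, hz⟩⟩
    refine ⟨Fin.append y z, fun j => ?_⟩
    change Fin.append φ.r ψ.r j • x
        + ∑ l : Fin (φ.m + ψ.m), (φ.inf ψ).s j l • Fin.append y z l = 0
    rw [Fin.sum_univ_add]
    refine Fin.addCases (fun j => ?_) (fun j => ?_) j
    · simpa [PP.inf, Fin.append_left, Fin.append_right] using hy j
    · simpa [PP.inf, Fin.append_left, Fin.append_right] using hz j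

end sat

/-- The matrix of the sum. -/
def psumS {S : Type u} [Ring S] (φ ψ : PP S) : Fin (φ.e + ψ.e) → Fin ((φ.m + ψ.m) + 1) → S :=
  Fin.append (fun j => Fin.cons (-φ.r j) (Fin.append (φ.s j) (fun _ => 0)))
    (fun j => Fin.cons (ψ.r j) (Fin.append (fun _ => 0) (ψ.s j)))

/-- The sum of two pp conditions. -/
def psum {S : Type u} [Ring S] (φ ψ : PP S) : PP S where
  m := (φ.m + ψ.m) + 1
  e := φ.e + ψ.e
  r := Fin.append φ.r (fun _ => 0)
  s := psumS φ ψ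

theorem sum_split {S : Type u} [Ring S] {M : Type v} [AddCommGroup M] [Module S M] {p q : ℕ}
    (r : Fin ((p + q) + 1) → S) (y : Fin ((p + q) + 1) → M) :
    ∑ l, r l • y l = r 0 • y 0 +
      (∑ l : Fin p, r (Fin.succ (Fin.castAdd _ l)) • y (Fin.succ (Fin.castAdd _ l)) +
        ∑ l : Fin q, r (Fin.succ (Fin.natAdd _ l)) • y (Fin.succ (Fin.natAdd _ l))) := by
  rw [Fin.sum_univ_succ, Fin.sum_univ_add]

theorem sat_psum {S : Type u} [Ring S] {M : Type v} [AddCommGroup M] [Module S M] {φ ψ : PP S}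
    {x : M} : (psum φ ψ).Sat x ↔ ∃ p q, φ.Sat p ∧ ψ.Sat q ∧ p + q = x := by
  have hdef : (psum φ ψ).Sat x ↔ ∃ y : Fin ((φ.m + ψ.m) + 1) → M, ∀ j : Fin (φ.e + ψ.e),
      (Fin.append φ.r (fun _ => 0) j : S) • x + ∑ l, psumS φ ψ j l • y l = 0 := Iff.rfl
  rw [hdef]
  constructor
  · rintro ⟨y, hy⟩
    refine ⟨x - y 0, y 0, ⟨fun l => y (Fin.succ (Fin.castAdd _ l)), fun j => ?_⟩,
      ⟨fun l => y (Fin.succ (Fin.natAdd _ l)), fun j => ?_⟩, sub_add_cancel _ _⟩
    · have h1 := hy (Fin.castAdd _ j)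
      rw [sum_split] at h1
      simp only [psumS, Fin.append_left, Fin.append_right, Fin.cons_zero, Fin.cons_succ,
        zero_smul, Finset.sum_const_zero, add_zero, neg_smul] at h1
      rw [smul_sub, sub_eq_add_neg, add_assoc]
      exact h1
    · have h1 := hy (Fin.natAdd _ j)
      rw [sum_split] at h1
      simp only [psumS, Fin.append_left, Fin.append_right, Fin.cons_zero, Fin.cons_succ,
        zero_smul, Finset.sum_const_zero, zero_add] at h1
      exact h1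
  · rintro ⟨p, q, ⟨y, hy⟩, ⟨z, hz⟩, rfl⟩
    refine ⟨(Fin.cons q (Fin.append y z) : Fin ((φ.m + ψ.m) + 1) → M), fun j => ?_⟩
    rw [sum_split]
    refine Fin.addCases (fun j => ?_) (fun j => ?_) j
    · simp only [psumS, Fin.append_left, Fin.append_right, Fin.cons_zero, Fin.cons_succ,
        zero_smul, Finset.sum_const_zero, add_zero, neg_smul]
      rw [smul_add, ← hy j]
      abel
    · simp only [psumS, Fin.append_left, Fin.append_right, Fin.cons_zero, Fin.cons_succ,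
        zero_smul, Finset.sum_const_zero, zero_add]
      exact hz j

/-- The matrix of the condition `tor`. -/
def torS {S : Type u} [Ring S] (φ : PP S) {n a : ℕ} (s : Fin n → Fin a → S)
    (rb : Fin n → S) : Fin (φ.e + n) → Fin ((φ.m + a) + 1) → S :=
  Fin.append (fun j => Fin.cons (φ.r j) (Fin.append (φ.s j) (fun _ => 0)))
    (fun l => Fin.cons (- rb l) (Fin.append (fun _ => 0) (s l)))

/-- The condition on `z`: for some `v` with `φ` the element `b ⊗ v - x ⊗ z` is zero, where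
`b = ∑ d_l b_l` and `x = ∑ d_l x_l` in the right module with generators `d_l` and relations
`∑ d_l s_{lt} = 0`. -/
def tor {S : Type u} [Ring S] (φ : PP S) {n a : ℕ} (s : Fin n → Fin a → S)
    (rb rx : Fin n → S) : PP S where
  m := (φ.m + a) + 1
  e := φ.e + n
  r := Fin.append (fun _ => 0) rx
  s := torS φ s rb

theorem sat_tor {S : Type u} [Ring S] {M : Type v} [AddCommGroup M] [Module S M] {φ : PP S}
    {n a : ℕ} {s : Fin n → Fin a → S} {rb rx : Fin n → S} {x : M}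
    (h : (tor φ s rb rx).Sat x) : ∃ v, φ.Sat v ∧ ∃ y : Fin a → M, ∀ l,
      rx l • x + (- rb l • v + ∑ t, s l t • y t) = 0 := by
  have h' : ∃ y : Fin ((φ.m + a) + 1) → M, ∀ j : Fin (φ.e + n),
      (Fin.append (fun _ => 0) rx j : S) • x + ∑ l, torS φ s rb j l • y l = 0 := h
  obtain ⟨y, hy⟩ := h'
  refine ⟨y 0, ⟨fun l => y (Fin.succ (Fin.castAdd _ l)), fun j => ?_⟩,
    fun l => y (Fin.succ (Fin.natAdd _ l)), fun l => ?_⟩
  · have h1 := hy (Fin.castAdd _ j)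
    rw [sum_split] at h1
    simp only [torS, Fin.append_left, Fin.append_right, Fin.cons_zero, Fin.cons_succ,
      zero_smul, Finset.sum_const_zero, add_zero, zero_add] at h1
    exact h1
  · have h1 := hy (Fin.natAdd _ l)
    rw [sum_split] at h1
    simp only [torS, Fin.append_left, Fin.append_right, Fin.cons_zero, Fin.cons_succ,
      zero_smul, Finset.sum_const_zero, zero_add] at h1
    exact h1

theorem mem_dual {S : Type u} [Ring S] {φ : PP S} {C : Type v} [AddCommGroup C]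
    [Module Sᵐᵒᵖ C] {c : C} : c ∈ φ.dual C ↔ ∃ z : Fin φ.e → C,
      c = ∑ j, op (φ.r j) • z j ∧ ∀ l, ∑ j, op (φ.s j l) • z j = 0 := Iff.rfl

theorem mem_dual_tor {S : Type u} [Ring S] {φ : PP S} {C : Type v} [AddCommGroup C]
    [Module Sᵐᵒᵖ C] {n a : ℕ} {s : Fin n → Fin a → S} {rb rx : Fin n → S} {c : C} :
    c ∈ (tor φ s rb rx).dual C ↔ ∃ z : Fin n → C, (∀ t, ∑ l, op (s l t) • z l = 0) ∧
      ∑ l, op (rb l) • z l ∈ φ.dual C ∧ c = ∑ l, op (rx l) • z l := by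
  have hdef : c ∈ (tor φ s rb rx).dual C ↔ ∃ z : Fin (φ.e + n) → C,
      c = ∑ j, op (Fin.append (fun _ => 0) rx j : S) • z j ∧
      ∀ l : Fin ((φ.m + a) + 1), ∑ j, op (torS φ s rb j l) • z j = 0 := Iff.rfl
  rw [hdef]
  have hr : ∀ z : Fin (φ.e + n) → C, ∑ j, op (Fin.append (fun _ => 0) rx j : S) • z j =
      ∑ l, op (rx l) • z (Fin.natAdd _ l) := by
    intro z
    rw [Fin.sum_univ_add]
    simp only [Fin.append_left, Fin.append_right, op_zero, zero_smul,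
      Finset.sum_const_zero, zero_add]
  have h0 : ∀ z : Fin (φ.e + n) → C,
      ∑ j, op (torS φ s rb j 0) • z j =
        ∑ j, op (φ.r j) • z (Fin.castAdd _ j) - ∑ l, op (rb l) • z (Fin.natAdd _ l) := by
    intro z
    rw [Fin.sum_univ_add]
    simp only [torS, Fin.append_left, Fin.append_right, Fin.cons_zero, op_neg, neg_smul,
      Finset.sum_neg_distrib, sub_eq_add_neg]
  have h1 : ∀ (z : Fin (φ.e + n) → C) (k : Fin φ.m),
      ∑ j, op (torS φ s rb j (Fin.succ (Fin.castAdd _ k))) • z j =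
        ∑ j, op (φ.s j k) • z (Fin.castAdd _ j) := by
    intro z k
    rw [Fin.sum_univ_add]
    simp only [torS, Fin.append_left, Fin.append_right, Fin.cons_succ, op_zero, zero_smul,
      Finset.sum_const_zero, add_zero]
  have h2 : ∀ (z : Fin (φ.e + n) → C) (t : Fin a),
      ∑ j, op (torS φ s rb j (Fin.succ (Fin.natAdd _ t))) • z j =
        ∑ l, op (s l t) • z (Fin.natAdd _ l) := by
    intro z t
    rw [Fin.sum_univ_add]
    simp only [torS, Fin.append_left, Fin.append_right, Fin.cons_succ, op_zero, zero_smul,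
      Finset.sum_const_zero, zero_add]
  constructor
  · rintro ⟨z, hz, hz'⟩
    refine ⟨fun l => z (Fin.natAdd _ l), fun t => ?_, ⟨fun j => z (Fin.castAdd _ j), ?_,
      fun k => ?_⟩, ?_⟩
    · rw [← h2 z t]
      exact hz' (Fin.succ (Fin.natAdd _ t))
    · have h3 := (h0 z).symm.trans (hz' 0)
      exact (sub_eq_zero.1 h3).symm
    · rw [← h1 z k]
      exact hz' (Fin.succ (Fin.castAdd _ k))
    · rw [hz]
      exact hr z
  · rintro ⟨z, hz, ⟨g, hg, hg'⟩, hc⟩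
    refine ⟨Fin.append g z, ?_, fun l => ?_⟩
    · rw [hc, hr]
      simp only [Fin.append_right]
    · refine Fin.cases ?_ (fun l => ?_) l
      · rw [h0]
        simp only [Fin.append_right, Fin.append_left]
        rw [hg, sub_self]
      · refine Fin.addCases (fun k => ?_) (fun t => ?_) l
        · rw [h1]
          simp only [Fin.append_left]
          exact hg' k
        · rw [h2]
          simp only [Fin.append_right]
          exact hz t

/-! ### Presentations -/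

section pres

variable {S : Type u} [Ring S]

theorem exists_pres (N : Type u) [AddCommGroup N] [Module Sᵐᵒᵖ N]
    [Module.FinitePresentation Sᵐᵒᵖ N] : ∃ (n a : ℕ) (s : Fin n → Fin a → S) (d : Fin n → N),
      (∀ x : N, ∃ r : Fin n → S, x = ∑ j, op (r j) • d j) ∧
      (∀ t, ∑ j, op (s j t) • d j = 0) ∧
      ∀ (N₁ : Type u) [AddCommGroup N₁] [Module Sᵐᵒᵖ N₁] (z : Fin n → N₁),
        (∀ t, ∑ j, op (s j t) • z j = 0) → ∃ h : N →ₗ[Sᵐᵒᵖ] N₁, ∀ j, h (d j) = z j := by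
  obtain ⟨b, K, e, hK⟩ := Module.FinitePresentation.exists_fin Sᵐᵒᵖ N
  let j : Idx Sᵐᵒᵖ := ⟨b, K, hK⟩
  let e' : N ≃ₗ[Sᵐᵒᵖ] Md Sᵐᵒᵖ j := e
  obtain ⟨a, κ, hκ, hu⟩ := cmod_gens Sᵐᵒᵖ j
  refine ⟨b, a, fun l t => unop (κ t l), fun l => e'.symm (cmod_q Sᵐᵒᵖ j (Pi.single l 1)),
    ?_, ?_, ?_⟩
  · intro x
    obtain ⟨v, hv⟩ := cmod_q_surj Sᵐᵒᵖ j (e' x)
    refine ⟨fun l => unop (v l), ?_⟩
    apply e'.injective
    rw [map_sum, ← hv, cmod_q_sum]
    refine Finset.sum_congr rfl fun l _ => ?_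
    rw [map_smul, LinearEquiv.apply_symm_apply, op_unop]
  · intro t
    apply e'.injective
    rw [map_sum, map_zero, ← hκ t, cmod_q_sum]
    refine Finset.sum_congr rfl fun l _ => ?_
    rw [map_smul, LinearEquiv.apply_symm_apply, op_unop]
  · intro N₁ _ _ z hz
    obtain ⟨g, hg⟩ := hu N₁ z (fun t => by simpa using hz t)
    refine ⟨g.comp e'.toLinearMap, fun l => ?_⟩
    change g (e' (e'.symm _)) = _
    rw [LinearEquiv.apply_symm_apply, hg]

/-- every finitely generated submodule is the dual of a pp condition -/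
theorem exists_dual_eq (K : Submodule (Module.End Sᵐᵒᵖ (CC Sᵐᵒᵖ)) (CC Sᵐᵒᵖ)) (hK : K.FG) :
    ∃ φ : PP S, φ.dual (CC Sᵐᵒᵖ) = K := by
  obtain ⟨N, i1, i2, x, i3, e⟩ := coh_exists Sᵐᵒᵖ K hK
  obtain ⟨n, a, s, d, h1, h2, h3⟩ := exists_pres (S := S) N
  obtain ⟨r, hr⟩ := h1 x
  refine ⟨⟨a, n, r, s⟩, ?_⟩
  rw [e]
  ext c
  constructor
  · rintro ⟨z, hz, hz'⟩
    obtain ⟨h, hh⟩ := h3 (CC Sᵐᵒᵖ) z hz'
    refine ⟨h, ?_⟩
    rw [hz, hr, map_sum]
    refine Finset.sum_congr rfl fun j _ => ?_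
    rw [map_smul, hh]
  · rintro ⟨h, hc⟩
    refine ⟨fun j => h (d j), ?_, fun l => ?_⟩
    · rw [hc, hr, map_sum]
      refine Finset.sum_congr rfl fun j _ => ?_
      rw [map_smul]
    · have := congrArg h (h2 l)
      rw [map_sum, map_zero] at this
      simpa only [map_smul] using this

/-- a common presentation of two elements -/
theorem exists_pres₂ (b x : CC Sᵐᵒᵖ) : ∃ (n a : ℕ) (s : Fin n → Fin a → S)
    (d : Fin n → CC Sᵐᵒᵖ) (rb rx : Fin n → S),
      b = ∑ j, op (rb j) • d j ∧ x = ∑ j, op (rx j) • d j ∧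
      (∀ t, ∑ j, op (s j t) • d j = 0) ∧
      ∀ z : Fin n → CC Sᵐᵒᵖ, (∀ t, ∑ j, op (s j t) • z j = 0) →
        ∃ f : Module.End Sᵐᵒᵖ (CC Sᵐᵒᵖ), ∀ j, f (d j) = z j := by
  classical
  obtain ⟨F₁, hF₁⟩ := CC_sum Sᵐᵒᵖ b
  obtain ⟨F₂, hF₂⟩ := CC_sum Sᵐᵒᵖ x
  let F := F₁ ∪ F₂
  have hfp : ∀ j : F, Module.FinitePresentation Sᵐᵒᵖ (Md Sᵐᵒᵖ j.1) := fun j =>
    Module.finitePresentation_of_surjective (j.1.2.1).mkQ (Submodule.mkQ_surjective _)
      (by rw [Submodule.ker_mkQ]; exact j.1.2.2)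
  let π : CC Sᵐᵒᵖ →ₗ[Sᵐᵒᵖ] (∀ j : F, Md Sᵐᵒᵖ j.1) := LinearMap.pi fun j => cmp Sᵐᵒᵖ j.1
  let ι : (∀ j : F, Md Sᵐᵒᵖ j.1) →ₗ[Sᵐᵒᵖ] CC Sᵐᵒᵖ :=
    ∑ j : F, (inc Sᵐᵒᵖ j.1).comp (LinearMap.proj j)
  have hι : ∀ m, ι m = ∑ j : F, inc Sᵐᵒᵖ j.1 (m j) := by
    intro m
    simp only [ι, LinearMap.sum_apply, LinearMap.comp_apply, LinearMap.proj_apply]
  have hιπ : ∀ c, (c = ∑ j ∈ F, pr Sᵐᵒᵖ j c) → ι (π c) = c := by
    intro c hc
    rw [hι]
    conv_rhs => rw [hc]
    rw [← Finset.sum_coe_sort F (fun j => pr Sᵐᵒᵖ j c)]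
    rfl
  have hπι : ∀ m, π (ι m) = m := by
    intro m
    funext i
    change cmp Sᵐᵒᵖ i.1 (ι m) = m i
    rw [hι, map_sum, Finset.sum_eq_single i]
    · exact cmod_cmp_inc Sᵐᵒᵖ i.1 (m i)
    · intro j _ hj
      exact cmod_cmp_inc_ne Sᵐᵒᵖ (fun h => hj (Subtype.ext h)) _
    · simp
  have hb := hιπ b (hF₁ F Finset.subset_union_left)
  have hx := hιπ x (hF₂ F Finset.subset_union_right)
  obtain ⟨n, a, s, d, h1, h2, h3⟩ := exists_pres (S := S) (∀ j : F, Md Sᵐᵒᵖ j.1)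
  obtain ⟨rb, hrb⟩ := h1 (π b)
  obtain ⟨rx, hrx⟩ := h1 (π x)
  refine ⟨n, a, s, fun j => ι (d j), rb, rx, ?_, ?_, ?_, ?_⟩
  · conv_lhs => rw [← hb, hrb]
    rw [map_sum]
    exact Finset.sum_congr rfl fun j _ => map_smul _ _ _
  · conv_lhs => rw [← hx, hrx]
    rw [map_sum]
    exact Finset.sum_congr rfl fun j _ => map_smul _ _ _
  · intro t
    have := congrArg ι (h2 t)
    rw [map_sum, map_zero] at this
    simpa only [map_smul] using this
  · intro z hz
    obtain ⟨h, hh⟩ := h3 (CC Sᵐᵒᵖ) z hz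
    refine ⟨h.comp π, fun j => ?_⟩
    rw [LinearMap.comp_apply, hπι, hh]

/-- Relations to a torsion quotient. -/
theorem torsion {φ ψ : PP S} {b x : CC Sᵐᵒᵖ} (hb : b ∈ ψ.dual (CC Sᵐᵒᵖ)) :
    ∃ χ ξ : PP S,
      (∀ c, c ∈ χ.dual (CC Sᵐᵒᵖ) ↔ ∃ f : Module.End Sᵐᵒᵖ (CC Sᵐᵒᵖ),
        f b ∈ φ.dual (CC Sᵐᵒᵖ) ∧ c = f x) ∧
      (∀ c, c ∈ ξ.dual (CC Sᵐᵒᵖ) ↔ ∃ f : Module.End Sᵐᵒᵖ (CC Sᵐᵒᵖ), c = f x) ∧
      ∀ (M : Type u) [AddCommGroup M] [Module S M], (∀ v : M, φ.Sat v → ψ.Sat v) →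
        ∀ m : M, χ.Sat m → ξ.Sat m := by
  obtain ⟨n, a, s, d, rb, rx, h1, h2, h3, h4⟩ := exists_pres₂ b x
  let ξ : PP S := ⟨a, n, rx, s⟩
  let η : PP S := ⟨a, n, rb, s⟩
  have key : ∀ (r : Fin n → S) (y c : CC Sᵐᵒᵖ), y = ∑ j, op (r j) • d j →
      (c ∈ (⟨a, n, r, s⟩ : PP S).dual (CC Sᵐᵒᵖ) ↔
        ∃ f : Module.End Sᵐᵒᵖ (CC Sᵐᵒᵖ), c = f y) := by
    intro r y c hy
    constructor
    · rintro ⟨z, hz, hz'⟩
      obtain ⟨f, hf⟩ := h4 z hz'
      refine ⟨f, ?_⟩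
      rw [hz, hy, map_sum]
      refine Finset.sum_congr rfl fun j _ => ?_
      rw [map_smul, hf]
    · rintro ⟨f, hc⟩
      refine ⟨fun j => f (d j), ?_, fun l => ?_⟩
      · rw [hc, hy, map_sum]
        exact Finset.sum_congr rfl fun j _ => map_smul _ _ _
      · have := congrArg f (h3 l)
        rw [map_sum, map_zero] at this
        simpa only [map_smul] using this
  refine ⟨tor φ s rb rx, ξ, ?_, fun c => key rx x c h2, ?_⟩
  · intro c
    rw [mem_dual_tor]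
    constructor
    · rintro ⟨z, hz, hz1, hz2⟩
      obtain ⟨f, hf⟩ := h4 z hz
      refine ⟨f, ?_, ?_⟩
      · rw [h1, map_sum]
        simp only [map_smul, hf]
        exact hz1
      · rw [h2, map_sum, hz2]
        simp only [map_smul, hf]
    · rintro ⟨f, hf, hc⟩
      refine ⟨fun j => f (d j), fun t => ?_, ?_, ?_⟩
      · have := congrArg f (h3 t)
        rw [map_sum, map_zero] at this
        simpa only [map_smul] using this
      · rw [h1, map_sum] at hf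
        simpa only [map_smul] using hf
      · rw [hc, h2, map_sum]
        simp only [map_smul]
  · intro M _ _ hM m hm
    obtain ⟨v, hv, y, hy⟩ := sat_tor hm
    have hψ : ψ.Sat v := hM v hv
    have hle : η.dual (CC Sᵐᵒᵖ) ≤ ψ.dual (CC Sᵐᵒᵖ) := by
      intro c hc
      obtain ⟨f, rfl⟩ := (key rb b c h1).1 hc
      exact (ψ.dual (CC Sᵐᵒᵖ)).smul_mem f hb
    have hle' : (ψ.map (RingHom.id S)).le (η.map (RingHom.id S)) :=
      le_of_dual_le (RingHom.id S) ψ η hle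
    obtain ⟨y', hy'⟩ := hle' M v hψ
    refine ⟨fun t => y t + y' t, fun l => ?_⟩
    have e1 := hy l
    have e2 : rb l • v + ∑ t, s l t • y' t = 0 := hy' l
    change rx l • m + ∑ t, s l t • (y t + y' t) = 0
    have e3 : rx l • m + ∑ t, s l t • (y t + y' t) =
        (rx l • m + (- rb l • v + ∑ t, s l t • y t)) + (rb l • v + ∑ t, s l t • y' t) := by
      simp only [smul_add, Finset.sum_add_distrib, neg_smul]
      abel
    rw [e3, e1, e2, add_zero]

end pres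

end Pool.Agent.Helper56.SDD
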