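import Mathlib

/-!
# Extension of a splitting ideal from a neutral sublattice to a modular lattice
-/

namespace Pool.Agent.Helper56.SDD

universe u

/-- The conditions for the ideals used in the application of the lemma of Zorn. -/
structure Cand {L : Type u} [Lattice L] (A f : Set L) (b₀ : L) (I : Set L) : Prop where
  low : ∀ x y, y ∈ I → x ≤ y → x ∈ I
  sup : ∀ x y, x ∈ I → y ∈ I → x ⊔ y ∈ I
  le : ∀ x ∈ I, x ≤ b₀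
  sub : f ⊆ I
  int : ∀ x ∈ A, x ∈ I → x ∈ f

theorem exists_max {L : Type u} [Lattice L] {A f : Set L} {b₀ : L} {I₀ : Set L}
    (h₀ : Cand A f b₀ I₀) : ∃ I : Set L, Cand A f b₀ I ∧ ∀ J, Cand A f b₀ J → I ⊆ J → J = I := by
  obtain ⟨I, hI0, h⟩ := zorn_subset_nonempty {I | Cand A f b₀ I} (by
    intro c hc hchain hne
    refine ⟨⋃₀ c, ⟨?_, ?_, ?_, ?_, ?_⟩, fun s hs => Set.subset_sUnion_of_mem hs⟩
    · rintro x y ⟨s, hs, hy⟩ hxy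
      exact ⟨s, hs, (hc hs).low x y hy hxy⟩
    · rintro x y ⟨s, hs, hx⟩ ⟨t, ht, hy⟩
      rcases hchain.total hs ht with h | h
      · exact ⟨t, ht, (hc ht).sup _ _ (h hx) hy⟩
      · exact ⟨s, hs, (hc hs).sup _ _ hx (h hy)⟩
    · rintro x ⟨s, hs, hx⟩
      exact (hc hs).le x hx
    · obtain ⟨s, hs⟩ := hne
      exact (hc hs).sub.trans (Set.subset_sUnion_of_mem hs)
    · rintro x hxA ⟨s, hs, hx⟩
      exact (hc hs).int x hxA hx) I₀ h₀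
  exact ⟨I, h.1, fun J hJ hIJ => Set.Subset.antisymm (h.2 hJ hIJ) hIJ⟩

theorem dist_ideal {L : Type u} [Lattice L] [IsModularLattice L] {a₀ b₀ : L} (A f : Set L)
    (hA : ∀ x ∈ A, a₀ ≤ x ∧ x ≤ b₀) (hfA : f ⊆ A)
    (hlow : ∀ x ∈ A, ∀ y ∈ f, x ≤ y → x ∈ f)
    (hsup : ∀ x y, x ∈ f → y ∈ f → x ⊔ y ∈ f)
    {a b : L} (ha : a ∈ f) (hbA : b ∈ A) (hb : b ∉ f)
    (hsplit : ∀ x ∈ A, x ∉ f → ∃ y₁ ∈ A, ∃ y₂ ∈ A, y₁ ∉ f ∧ y₂ ∉ f ∧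
      (∃ c ∈ f, y₁ ≤ x ⊔ c ∧ y₂ ≤ x ⊔ c) ∧ ∀ c ∈ f, (y₁ ⊔ c) ⊓ (y₂ ⊔ c) ∈ f)
    (hdist : ∀ u, a₀ ≤ u → u ≤ b₀ → ∀ y₁ ∈ A, ∀ y₂ ∈ A,
      (u ⊔ y₁) ⊓ (u ⊔ y₂) ≤ u ⊔ (y₁ ⊓ y₂)) :
    ∃ I : Set L, (∀ x y, y ∈ I → x ≤ y → x ∈ I) ∧ (∀ x y, x ∈ I → y ∈ I → x ⊔ y ∈ I) ∧
      (∀ x ∈ I, x ≤ b₀) ∧ a₀ ∈ I ∧ b ∉ I ∧
      ∀ x, x ≤ b₀ → x ∉ I → ∃ z₁ z₂, z₁ ∉ I ∧ z₂ ∉ I ∧ z₁ ≤ x ∧ z₂ ≤ x ∧
        ∀ c ∈ I, (z₁ ⊔ c) ⊓ (z₂ ⊔ c) ∈ I := by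
  have h₀ : Cand A f b₀ {x | ∃ y ∈ f, x ≤ y} := by
    refine ⟨?_, ?_, ?_, ?_, ?_⟩
    · rintro x y ⟨z, hz, hyz⟩ hxy
      exact ⟨z, hz, hxy.trans hyz⟩
    · rintro x y ⟨z, hz, hxz⟩ ⟨w, hw, hyw⟩
      exact ⟨z ⊔ w, hsup _ _ hz hw, sup_le_sup hxz hyw⟩
    · rintro x ⟨y, hy, hxy⟩
      exact hxy.trans (hA y (hfA hy)).2
    · intro x hx
      exact ⟨x, hx, le_rfl⟩
    · rintro x hxA ⟨y, hy, hxy⟩
      exact hlow x hxA y hy hxy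
  obtain ⟨I, hI, hmax⟩ := exists_max h₀
  have haI : a₀ ∈ I := hI.low _ _ (hI.sub ha) (hA a (hfA ha)).1
  refine ⟨I, hI.low, hI.sup, hI.le, haI, fun h => hb (hI.int b hbA h), ?_⟩
  intro x hxb hx
  -- maximality
  obtain ⟨i, hi, l, hlA, hlf, hl⟩ : ∃ i ∈ I, ∃ l ∈ A, l ∉ f ∧ l ≤ x ⊔ i := by
    by_contra hcon
    push Not at hcon
    have hJ : Cand A f b₀ {y | ∃ i ∈ I, y ≤ x ⊔ i} := by
      refine ⟨?_, ?_, ?_, ?_, ?_⟩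
      · rintro y z ⟨i, hi, hz⟩ hyz
        exact ⟨i, hi, hyz.trans hz⟩
      · rintro y z ⟨i, hi, hy⟩ ⟨j, hj, hz⟩
        refine ⟨i ⊔ j, hI.sup _ _ hi hj, sup_le (hy.trans ?_) (hz.trans ?_)⟩
        · exact sup_le_sup_left le_sup_left x
        · exact sup_le_sup_left le_sup_right x
      · rintro y ⟨i, hi, hy⟩
        exact hy.trans (sup_le hxb (hI.le i hi))
      · intro y hy
        exact ⟨y, hI.sub hy, le_sup_right⟩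
      · rintro y hyA ⟨i, hi, hy⟩
        by_contra hyf
        exact hcon i hi y hyA hyf hy
    have h1 := hmax _ hJ (fun i hi => ⟨i, hi, le_sup_right⟩)
    apply hx
    rw [← h1]
    exact ⟨a₀, haI, le_sup_left⟩
  obtain ⟨y₁, hy₁A, y₂, hy₂A, hy₁, hy₂, ⟨c, hc, hc₁, hc₂⟩, hmeet⟩ := hsplit l hlA hlf
  -- enlarge `i`
  let j : L := i ⊔ c
  have hj : j ∈ I := hI.sup _ _ hi (hI.sub hc)
  have hyj : ∀ y, y ≤ l ⊔ c → y ≤ x ⊔ j := by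
    intro y hy
    refine hy.trans (sup_le (hl.trans (sup_le_sup_left le_sup_left x)) ?_)
    exact le_sup_right.trans le_sup_right
  have hnot : ∀ y ∈ A, y ∉ f → y ≤ l ⊔ c → x ⊓ (j ⊔ y) ∉ I := by
    intro y hyA hyf hy hz
    apply hyf
    refine hI.int y hyA (hI.low _ _ (hI.sup _ _ hz hj) ?_)
    -- `(x ⊓ (j ⊔ y)) ⊔ j = (x ⊔ j) ⊓ (j ⊔ y)`
    have h1 : (x ⊓ (j ⊔ y)) ⊔ j = (x ⊔ j) ⊓ (j ⊔ y) := by
      rw [inf_comm x, inf_sup_assoc_of_le x (le_sup_left : j ≤ j ⊔ y), inf_comm]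
    rw [h1]
    exact le_inf (hyj y hy) le_sup_right
  refine ⟨x ⊓ (j ⊔ y₁), x ⊓ (j ⊔ y₂), hnot y₁ hy₁A hy₁ hc₁, hnot y₂ hy₂A hy₂ hc₂, inf_le_left,
    inf_le_left, ?_⟩
  intro c' hc'
  let u : L := a₀ ⊔ (j ⊔ c')
  have hu : u ∈ I := hI.sup _ _ haI (hI.sup _ _ hj hc')
  have h2 : ∀ y, (x ⊓ (j ⊔ y)) ⊔ c' ≤ u ⊔ y := by
    intro y
    refine sup_le (inf_le_right.trans (sup_le ?_ le_sup_right)) ?_
    · exact (le_sup_left.trans le_sup_right).trans le_sup_left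
    · exact (le_sup_right.trans le_sup_right).trans le_sup_left
  refine hI.low _ _ ?_ ((inf_le_inf (h2 y₁) (h2 y₂)).trans
    (hdist u le_sup_left (hI.le u hu) y₁ hy₁A y₂ hy₂A))
  refine hI.sup _ _ hu (hI.low _ _ (hI.sub (hmeet a ha)) ?_)
  exact inf_le_inf le_sup_left le_sup_left

end Pool.Agent.Helper56.SDD
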