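import Pool.Agent.Helper35.SD.Main

/-!
# The corner of the injective hull, and pp conditions in it
-/

namespace Pool.Agent.Helper56.SDD

open Pool.Agent.H35SD

universe u v w

theorem exists_sd_mem {Λ S : Type u} [Ring Λ] [Ring S] {θ : S → Λ} {J : Type v} {ε : J → Λ}
    (h : Corner θ ε) (Q : Type u) [AddCommGroup Q] [Module Λ Q] [Nontrivial Q]
    (hQ : NoUnif Λ Q) (hε : ∀ q : Q, q ≠ 0 → ∃ j, ε j • q ≠ 0) :
    ∃ (W : Type u) (_ : AddCommGroup W) (_ : Module Λ W) (i : Q →ₗ[Λ] W),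
      Module.Injective Λ W ∧ Function.Injective i ∧
      (∀ w : W, w ≠ 0 → ∃ (l : Λ) (q : Q), l • w = i q ∧ q ≠ 0) ∧
      PureInjective S (h.cor W) ∧ Superdecomposable S (h.cor W) := by
  obtain ⟨E, _, _, i, hE, hi⟩ := exists_injective (Λ := Λ) Q
  obtain ⟨W, W', hVW, hWess, hWW'⟩ := exists_hull hE (LinearMap.range i)
  have hW := Corner.injective_of_isCompl hE hWW'
  let i' : Q →ₗ[Λ] W := LinearMap.codRestrict W i fun q => hVW (LinearMap.mem_range_self i q)
  have hi' : Function.Injective i' := by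
    intro a b hab
    exact hi (congrArg (fun x : W => (x : E)) hab)
  have hess : ∀ X : Submodule Λ W, X ⊓ LinearMap.range i' = ⊥ → X = ⊥ := by
    intro X hX
    have h1 : X.map W.subtype = ⊥ := by
      refine hWess _ (Submodule.map_subtype_le W X) ?_
      rw [Submodule.eq_bot_iff]
      rintro v ⟨⟨x, hx, hxv⟩, ⟨q, hq⟩⟩
      have h2 : x ∈ X ⊓ LinearMap.range i' := by
        refine ⟨hx, ⟨q, Subtype.ext ?_⟩⟩
        rw [← hxv] at hq
        exact hq
      rw [hX, Submodule.mem_bot] at h2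
      rw [← hxv, h2, map_zero]
    exact (map_eq_bot_of_inj W.injective_subtype _).mp h1
  refine ⟨W, inferInstance, inferInstance, i', hW, hi', ?_, h.pureInjective_cor hW, ?_⟩
  · intro w hw
    have h1 : Submodule.span Λ {w} ⊓ LinearMap.range i' ≠ ⊥ := by
      intro h0
      apply hw
      have h2 := hess _ h0
      rwa [Submodule.span_singleton_eq_bot] at h2
    obtain ⟨x, ⟨hx1, ⟨q, hq⟩⟩, hx0⟩ := (Submodule.ne_bot_iff _).mp h1
    obtain ⟨l, hl⟩ := Submodule.mem_span_singleton.1 hx1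
    refine ⟨l, q, hl.trans hq.symm, ?_⟩
    rintro rfl
    exact hx0 (hq.symm.trans (map_zero i'))
  refine h.superdecomposable_cor hW (LinearMap.range i') ?_ hess ?_ ?_
  · obtain ⟨q, hq⟩ := exists_ne (0 : Q)
    intro h0
    apply hq
    have h1 : i' q ∈ LinearMap.range i' := LinearMap.mem_range_self i' q
    rw [h0, Submodule.mem_bot] at h1
    exact hi' (h1.trans (map_zero i').symm)
  · intro V hV hV0
    obtain ⟨V₁, V₂, h1, h2, h3, h4, h5⟩ := hQ (V.comap i') (by
      intro h0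
      apply hV0
      rw [Submodule.eq_bot_iff]
      intro v hv
      obtain ⟨q, hq⟩ := hV hv
      have h6 : q ∈ V.comap i' := by
        rw [Submodule.mem_comap, hq]; exact hv
      rw [h0, Submodule.mem_bot] at h6
      rw [← hq, h6, map_zero])
    refine ⟨V₁.map i', V₂.map i', Submodule.map_le_iff_le_comap.mpr h1,
      Submodule.map_le_iff_le_comap.mpr h2, ?_, ?_, ?_⟩
    · rwa [Ne, map_eq_bot_of_inj hi']
    · rwa [Ne, map_eq_bot_of_inj hi']
    · rw [← Submodule.map_inf i' hi', h5, Submodule.map_bot]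
  · rintro _ ⟨q, rfl⟩ hq0
    obtain ⟨j, hj⟩ := hε q (by rintro rfl; exact hq0 (map_zero i'))
    refine ⟨j, ?_⟩
    rw [← map_smul]
    intro h0
    exact hj (hi' (h0.trans (map_zero i').symm))

section crit

variable {S : Type u} [Ring S] {W : Type u} [AddCommGroup W]
  [Module (Module.End Sᵐᵒᵖ (CC Sᵐᵒᵖ)) W]

theorem th_u (s : S) : th S s (cmod_u S) = MulOpposite.op s • cmod_u S := by
  rw [cmod_th, cmod_h_u]

theorem end_smul (f : Module.End Sᵐᵒᵖ (CC Sᵐᵒᵖ)) (x : CC Sᵐᵒᵖ) : f • x = f x := rfl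

/-- a pp condition satisfied by `v` gives relations -/
theorem ann_of_sat (ψ : PP S) (v : (CC_corner S).cor W) (h : ψ.Sat v) :
    ∀ c ∈ ψ.dual (CC Sᵐᵒᵖ), cmod_h S c • (v : W) = 0 := by
  rintro c ⟨z, hz, hz'⟩
  obtain ⟨y, hy⟩ := h
  have h1 : ∀ j, th S (ψ.r j) • (v : W) + ∑ l, th S (ψ.s j l) • (y l : W) = 0 := by
    intro j
    have := congrArg (fun x : (CC_corner S).cor W => (x : W)) (hy j)
    simpa [Corner.coe_smul] using this
  have h2 : cmod_h S c = ∑ j, cmod_h S (z j) * th S (ψ.r j) := by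
    rw [hz, cmod_h_sum]
    exact Finset.sum_congr rfl fun j _ => (cmod_h_th S _ _).symm
  have h3 : ∀ l, ∑ j, cmod_h S (z j) * th S (ψ.s j l) = 0 := by
    intro l
    have := congrArg (cmod_h S) (hz' l)
    rw [cmod_h_sum, cmod_h_zero] at this
    rw [← this]
    exact Finset.sum_congr rfl fun j _ => cmod_h_th S _ _
  rw [h2, Finset.sum_smul]
  have h4 : ∀ j, (cmod_h S (z j) * th S (ψ.r j)) • (v : W) =
      - ∑ l, (cmod_h S (z j) * th S (ψ.s j l)) • (y l : W) := by
    intro j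
    rw [mul_smul, eq_neg_of_add_eq_zero_left (h1 j), smul_neg, Finset.smul_sum]
    simp only [mul_smul]
  simp only [h4, Finset.sum_neg_distrib]
  rw [Finset.sum_comm]
  simp only [← Finset.sum_smul, h3, zero_smul, Finset.sum_const_zero, neg_zero]

/-- the criterion for pp conditions in the corner of an injective module -/
theorem sat_of_ann (hW : Module.Injective (Module.End Sᵐᵒᵖ (CC Sᵐᵒᵖ)) W) (ψ : PP S)
    (v : (CC_corner S).cor W) (h : ∀ c ∈ ψ.dual (CC Sᵐᵒᵖ), cmod_h S c • (v : W) = 0) :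
    ψ.Sat v := by
  classical
  let Λ := Module.End Sᵐᵒᵖ (CC Sᵐᵒᵖ)
  let g : (Fin ψ.e → CC Sᵐᵒᵖ) →ₗ[Module.End Sᵐᵒᵖ (CC Sᵐᵒᵖ)] (Fin ψ.m → CC Sᵐᵒᵖ) :=
    { toFun := fun z l => ∑ j, MulOpposite.op (ψ.s j l) • z j
      map_add' := by
        intro z z'
        ext1 l
        simp only [Pi.add_apply, smul_add, Finset.sum_add_distrib]
      map_smul' := by
        intro f z
        ext1 l
        simp only [Pi.smul_apply, end_smul, map_sum, map_smul, RingHom.id_apply] }
  let k : (Fin ψ.e → CC Sᵐᵒᵖ) →ₗ[Module.End Sᵐᵒᵖ (CC Sᵐᵒᵖ)] W :=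
    { toFun := fun z => - (cmod_h S (∑ j, MulOpposite.op (ψ.r j) • z j) • (v : W))
      map_add' := by
        intro z z'
        simp only [Pi.add_apply, smul_add, Finset.sum_add_distrib, cmod_h_add, add_smul]
        abel
      map_smul' := by
        intro f z
        have h1 : ∑ j, MulOpposite.op (ψ.r j) • (f • z) j =
            f (∑ j, MulOpposite.op (ψ.r j) • z j) := by
          simp only [Pi.smul_apply, end_smul, map_sum, map_smul]
        rw [h1, ← cmod_mul_h, mul_smul, RingHom.id_apply, smul_neg] }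
  have hker : LinearMap.ker g ≤ LinearMap.ker k := by
    intro z hz
    rw [LinearMap.mem_ker] at hz ⊢
    have h1 := h (∑ j, MulOpposite.op (ψ.r j) • z j) ⟨z, rfl, fun l => congrFun hz l⟩
    change - _ = (0 : W)
    rw [h1, neg_zero]
  obtain ⟨F, hF⟩ := hW.out ((LinearMap.ker g).liftQ g le_rfl)
    (by rw [← LinearMap.ker_eq_bot, Submodule.ker_liftQ_eq_bot _ _ _ le_rfl])
    ((LinearMap.ker g).liftQ k hker)
  have hF' : ∀ z, F (g z) = k z := by
    intro z
    have h1 := hF (Submodule.Quotient.mk z)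
    rw [Submodule.liftQ_apply, Submodule.liftQ_apply] at h1
    exact h1
  have hth1 : th S 1 (cmod_u S) = cmod_u S := by
    rw [th_u, MulOpposite.op_one, one_smul]
  have hsingle : ∀ (f : Module.End Sᵐᵒᵖ (CC Sᵐᵒᵖ)) (l : Fin ψ.m) (x : CC Sᵐᵒᵖ),
      F (Pi.single l (f x)) = f • F (Pi.single l x) := by
    intro f l x
    rw [← map_smul]
    congr 1
    ext1 l'
    rcases eq_or_ne l' l with rfl | hne
    · rw [Pi.single_eq_same, Pi.smul_apply, Pi.single_eq_same, end_smul]
    · rw [Pi.single_eq_of_ne hne, Pi.smul_apply, Pi.single_eq_of_ne hne, smul_zero]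
  refine ⟨fun l => ⟨F (Pi.single l (cmod_u S)), ?_⟩, fun i => ?_⟩
  · rw [Corner.mem_cor, ← hsingle, hth1]
  · apply Subtype.ext
    have h1 := hF' (Pi.single i (cmod_u S))
    have h2 : g (Pi.single i (cmod_u S)) =
        ∑ l, Pi.single l (th S (ψ.s i l) (cmod_u S)) := by
      rw [Finset.univ_sum_single]
      ext1 l
      change ∑ j, MulOpposite.op (ψ.s j l) • (Pi.single i (cmod_u S) : Fin ψ.e → CC Sᵐᵒᵖ) j = _
      rw [Finset.sum_eq_single i]
      · rw [Pi.single_eq_same, th_u]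
      · intro j _ hj
        rw [Pi.single_eq_of_ne hj, smul_zero]
      · simp
    have h3 : k (Pi.single i (cmod_u S)) = - (th S (ψ.r i) • (v : W)) := by
      change - (cmod_h S (∑ j, MulOpposite.op (ψ.r j) •
        (Pi.single i (cmod_u S) : Fin ψ.e → CC Sᵐᵒᵖ) j) • (v : W)) = _
      rw [Finset.sum_eq_single i]
      · rw [Pi.single_eq_same, ← cmod_th]
      · intro j _ hj
        rw [Pi.single_eq_of_ne hj, smul_zero]
      · simp
    rw [h2, h3, map_sum] at h1
    simp only [hsingle] at h1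
    have h4 : ((ψ.r i • v + ∑ l, ψ.s i l • (⟨F (Pi.single l (cmod_u S)), by
        rw [Corner.mem_cor, ← hsingle, hth1]⟩ : (CC_corner S).cor W) :
          (CC_corner S).cor W) : W) =
        th S (ψ.r i) • (v : W) + ∑ l, th S (ψ.s i l) • F (Pi.single l (cmod_u S)) := by
      simp [Corner.coe_smul]
    refine h4.trans ?_
    rw [h1, add_neg_cancel]
    rfl

end crit

end Pool.Agent.Helper56.SDD
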