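import Pool.Agent.Helper56.SDD.Defs
import Pool.Agent.Helper56.SDD.Form

/-!
# The lattice of the pp conditions of a definable category, with the reversed order
-/

namespace Pool.Agent.Helper56.SDD

open Pool.Agent.H35SD MulOpposite

universe u v w

section basic

variable {S : Type u} [Ring S] {X : Set (PP S × PP S)}

theorem Le.refl (φ : PP S) : Le X φ φ := fun _ _ _ _ _ h => h

theorem Le.trans {φ ψ χ : PP S} (h : Le X φ ψ) (h' : Le X ψ χ) : Le X φ χ :=
  fun M _ _ hM x hx => h' M hM x (h M hM x hx)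

theorem Le.of_le {φ ψ : PP S} (h : φ.le ψ) : Le X φ ψ := fun M _ _ _ x hx => h M x hx

end basic

/-- The pp conditions with the reversed order of `pp(X)`. -/
def Fm {S : Type u} [Ring S] (_X : Set (PP S × PP S)) : Type u := PP S

instance {S : Type u} [Ring S] (X : Set (PP S × PP S)) : Preorder (Fm X) where
  le a b := Le X (b : PP S) a
  le_refl a := Le.refl _
  le_trans _ _ _ h h' := h'.trans h

/-- The lattice `pp(X)` with the reversed order. -/
abbrev Qt {S : Type u} [Ring S] (X : Set (PP S × PP S)) : Type u :=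
  Antisymmetrization (Fm X) (· ≤ ·)

section qt

variable {S : Type u} [Ring S] (X : Set (PP S × PP S))

/-- The class of a pp condition. -/
def cl (φ : PP S) : Qt X := toAntisymmetrization (α := Fm X) (· ≤ ·) φ

theorem cl_le {φ ψ : PP S} : cl X φ ≤ cl X ψ ↔ Le X ψ φ :=
  toAntisymmetrization_le_toAntisymmetrization_iff (α := Fm X)

/-- A representative. -/
noncomputable def rp (a : Qt X) : PP S := ofAntisymmetrization (α := Fm X) (· ≤ ·) a

theorem cl_rp (a : Qt X) : cl X (rp X a) = a :=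
  toAntisymmetrization_ofAntisymmetrization (α := Fm X) (· ≤ ·) a

theorem le_psum_left (φ ψ : PP S) : Le X φ (psum φ ψ) := by
  intro M _ _ _ x hx
  exact sat_psum.2 ⟨x, 0, hx, sat_zero ψ, add_zero x⟩

theorem le_psum_right (φ ψ : PP S) : Le X ψ (psum φ ψ) := by
  intro M _ _ _ x hx
  exact sat_psum.2 ⟨0, x, sat_zero φ, hx, zero_add x⟩

theorem psum_le {φ ψ χ : PP S} (h : Le X φ χ) (h' : Le X ψ χ) : Le X (psum φ ψ) χ := by
  intro M _ _ hM x hx
  obtain ⟨p, q, hp, hq, rfl⟩ := sat_psum.1 hx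
  exact sat_add (h M hM p hp) (h' M hM q hq)

theorem pinf_le_left (φ ψ : PP S) : Le X (φ.inf ψ) φ := fun _ _ _ _ _ hx => (sat_inf.1 hx).1

theorem pinf_le_right (φ ψ : PP S) : Le X (φ.inf ψ) ψ := fun _ _ _ _ _ hx => (sat_inf.1 hx).2

theorem le_pinf {φ ψ χ : PP S} (h : Le X χ φ) (h' : Le X χ ψ) : Le X χ (φ.inf ψ) :=
  fun M _ _ hM x hx => sat_inf.2 ⟨h M hM x hx, h' M hM x hx⟩

noncomputable instance : Lattice (Qt X) where
  sup a b := cl X ((rp X a).inf (rp X b))
  inf a b := cl X (psum (rp X a) (rp X b))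
  le_sup_left a b := by
    conv_lhs => rw [← cl_rp X a]
    exact (cl_le X).2 (pinf_le_left X _ _)
  le_sup_right a b := by
    conv_lhs => rw [← cl_rp X b]
    exact (cl_le X).2 (pinf_le_right X _ _)
  sup_le a b c h h' := by
    rw [← cl_rp X a, ← cl_rp X c, cl_le] at h
    rw [← cl_rp X b, ← cl_rp X c, cl_le] at h'
    conv_rhs => rw [← cl_rp X c]
    exact (cl_le X).2 (le_pinf X h h')
  inf_le_left a b := by
    conv_rhs => rw [← cl_rp X a]
    exact (cl_le X).2 (le_psum_left X _ _)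
  inf_le_right a b := by
    conv_rhs => rw [← cl_rp X b]
    exact (cl_le X).2 (le_psum_right X _ _)
  le_inf a b c h h' := by
    rw [← cl_rp X a, ← cl_rp X b, cl_le] at h
    rw [← cl_rp X a, ← cl_rp X c, cl_le] at h'
    conv_lhs => rw [← cl_rp X a]
    exact (cl_le X).2 (psum_le X h h')

theorem cl_sup (φ ψ : PP S) : cl X φ ⊔ cl X ψ = cl X (φ.inf ψ) := by
  apply le_antisymm
  · exact sup_le ((cl_le X).2 (pinf_le_left X _ _)) ((cl_le X).2 (pinf_le_right X _ _))
  · rw [← cl_rp X (cl X φ ⊔ cl X ψ), cl_le]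
    refine le_pinf X ?_ ?_
    · rw [← cl_le, cl_rp]
      exact le_sup_left
    · rw [← cl_le, cl_rp]
      exact le_sup_right

theorem cl_inf (φ ψ : PP S) : cl X φ ⊓ cl X ψ = cl X (psum φ ψ) := by
  apply le_antisymm
  · rw [← cl_rp X (cl X φ ⊓ cl X ψ), cl_le]
    refine psum_le X ?_ ?_
    · rw [← cl_le, cl_rp]
      exact inf_le_left
    · rw [← cl_le, cl_rp]
      exact inf_le_right
  · exact le_inf ((cl_le X).2 (le_psum_left X _ _)) ((cl_le X).2 (le_psum_right X _ _))

instance : IsModularLattice (Qt X) := ⟨by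
  intro x y z hxz
  rw [← cl_rp X x, ← cl_rp X z, cl_le] at hxz
  rw [← cl_rp X x, ← cl_rp X y, ← cl_rp X z, cl_sup, cl_inf, cl_inf, cl_sup, cl_le]
  intro M _ _ hM u hu
  obtain ⟨h1, h2⟩ := sat_inf.1 hu
  obtain ⟨p, q, hp, hq, rfl⟩ := sat_psum.1 h2
  refine sat_psum.2 ⟨p, q, sat_inf.2 ⟨?_, hp⟩, hq, rfl⟩
  have h3 := sat_sub h1 (hxz M hM q hq)
  rwa [add_sub_cancel_right] at h3⟩

/-- The condition `x = x`. -/
def ppTop (S : Type u) [Ring S] : PP S := ⟨0, 0, fun j => j.elim0, fun j => j.elim0⟩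

/-- The condition `x = 0`. -/
def ppBot (S : Type u) [Ring S] : PP S := ⟨0, 1, fun _ => 1, fun _ j => j.elim0⟩

theorem sat_ppTop {M : Type v} [AddCommGroup M] [Module S M] (x : M) : (ppTop S).Sat x :=
  ⟨fun j => j.elim0, fun j => j.elim0⟩

theorem sat_ppBot {M : Type v} [AddCommGroup M] [Module S M] {x : M} :
    (ppBot S).Sat x ↔ x = 0 := by
  constructor
  · rintro ⟨y, hy⟩
    have h1 : (1 : S) • x + ∑ l : Fin 0, (l.elim0 : S) • y l = 0 := hy (0 : Fin 1)
    rw [one_smul] at h1
    change x + ∑ l : Fin 0, (l.elim0 : S) • y l = 0 at h1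
    rw [Finset.univ_eq_empty, Finset.sum_empty, add_zero] at h1
    exact h1
  · rintro rfl
    exact sat_zero _

noncomputable instance : BoundedOrder (Qt X) where
  top := cl X (ppBot S)
  bot := cl X (ppTop S)
  le_top a := by
    conv_lhs => rw [← cl_rp X a]
    refine (cl_le X).2 ?_
    intro M _ _ _ x hx
    rw [sat_ppBot.1 hx]
    exact sat_zero _
  bot_le a := by
    conv_rhs => rw [← cl_rp X a]
    exact (cl_le X).2 fun M _ _ _ x _ => sat_ppTop x

/-- Finite sums of pp conditions. -/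
theorem exists_fsum (y : ℕ → PP S) (s : Finset ℕ) : ∃ φ : PP S,
    cl X φ = s.inf (fun i => cl X (y i)) ∧
      ∀ (M : Type u) [AddCommGroup M] [Module S M] (x : M), φ.Sat x ↔
        ∃ p : ℕ → M, (∀ i ∈ s, (y i).Sat (p i)) ∧ ∑ i ∈ s, p i = x := by
  classical
  induction s using Finset.induction_on with
  | empty =>
    refine ⟨ppBot S, rfl, fun M _ _ x => ?_⟩
    rw [sat_ppBot]
    constructor
    · rintro rfl
      exact ⟨0, by simp, by simp⟩
    · rintro ⟨p, -, h⟩
      simpa using h.symm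
  | insert a s ha ih =>
    obtain ⟨φ, h1, h2⟩ := ih
    refine ⟨psum (y a) φ, ?_, fun M _ _ x => ?_⟩
    · rw [Finset.inf_insert, ← h1, cl_inf]
    · rw [sat_psum]
      constructor
      · rintro ⟨p, q, hp, hq, rfl⟩
        obtain ⟨p', h3, rfl⟩ := (h2 M q).1 hq
        refine ⟨fun i => if i = a then p else p' i, ?_, ?_⟩
        · intro i hi
          rcases Finset.mem_insert.1 hi with rfl | hi
          · simpa using hp
          · have hia : i ≠ a := fun h => ha (h ▸ hi)
            simpa [hia] using h3 i hi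
        · rw [Finset.sum_insert ha, if_pos rfl]
          congr 1
          refine Finset.sum_congr rfl fun i hi => ?_
          have hia : i ≠ a := fun h => ha (h ▸ hi)
          rw [if_neg hia]
      · rintro ⟨p, hp, rfl⟩
        refine ⟨p a, ∑ i ∈ s, p i, hp a (Finset.mem_insert_self a s),
          (h2 M _).2 ⟨p, fun i hi => hp i (Finset.mem_insert_of_mem hi), rfl⟩, ?_⟩
        rw [Finset.sum_insert ha]

end qt

/-- closure of a countable set under countably many (finitely many) operations -/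
theorem exists_cc {A : Type u} {k : ℕ} (P : Set A) (f : A → A → Fin k → A)
    (hf : ∀ a ∈ P, ∀ b ∈ P, ∀ i, f a b i ∈ P) {B : Set A} (hBP : B ⊆ P) (hB : B.Countable) :
    ∃ P' : Set A, B ⊆ P' ∧ P' ⊆ P ∧ P'.Countable ∧ ∀ a ∈ P', ∀ b ∈ P', ∀ i, f a b i ∈ P' := by
  let st : Set A → Set A := fun A' => A' ∪ ⋃ a ∈ A', ⋃ b ∈ A', Set.range (f a b)
  let D : ℕ → Set A := fun n => st^[n] B
  have hD0 : D 0 = B := rfl
  have hDs : ∀ n, D (n + 1) = st (D n) := fun n => Function.iterate_succ_apply' _ _ _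
  have hDP : ∀ n, D n ⊆ P := by
    intro n
    induction n with
    | zero => exact hBP
    | succ n ih =>
      rw [hDs]
      rintro x (hx | hx)
      · exact ih hx
      · simp only [Set.mem_iUnion] at hx
        obtain ⟨a, ha, b, hb, ⟨i, rfl⟩⟩ := hx
        exact hf a (ih ha) b (ih hb) i
  have hDc : ∀ n, (D n).Countable := by
    intro n
    induction n with
    | zero => exact hB
    | succ n ih =>
      rw [hDs]
      exact ih.union (ih.biUnion fun a _ => ih.biUnion fun b _ => Set.countable_range _)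
  have hmono : Monotone D := monotone_nat_of_le_succ fun n => by
    rw [hDs]
    exact Set.subset_union_left
  refine ⟨⋃ n, D n, ?_, Set.iUnion_subset hDP, Set.countable_iUnion hDc, ?_⟩
  · exact Set.subset_iUnion D 0
  · intro a ha b hb i
    obtain ⟨n, hn⟩ := Set.mem_iUnion.1 ha
    obtain ⟨m, hm⟩ := Set.mem_iUnion.1 hb
    refine Set.mem_iUnion.2 ⟨max n m + 1, ?_⟩
    rw [hDs]
    refine Or.inr ?_
    simp only [Set.mem_iUnion]
    exact ⟨a, hmono (le_max_left _ _) hn, b, hmono (le_max_right _ _) hm, i, rfl⟩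

end Pool.Agent.Helper56.SDD
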