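import Pool.Agent.Helper35.SD.Main

/-!
# The quotient by a splitting ideal (with an explicit description)
-/

namespace Pool.Agent.Helper56.SDD

open Pool.Agent.H35SD

universe u v w

/-- The key lemma, in terms of an ideal of finitely generated submodules. -/
theorem quo_noUnif_mem {Λ C : Type u} [Ring Λ] [AddCommGroup C] [Module Λ C]
    (X : Submodule Λ C) (hXfg : X.FG) (f : Set (Submodule Λ C))
    (hfX : ∀ K ∈ f, K ≤ X)
    (hlow : ∀ x y : Submodule Λ C, x.FG → y ∈ f → x ≤ y → x ∈ f)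
    (hsup : ∀ x y, x ∈ f → y ∈ f → x ⊔ y ∈ f)
    (a : Submodule Λ C) (ha : a ∈ f) (hb : X ∉ f)
    (hsplit : ∀ x : Submodule Λ C, x.FG → x ≤ X → x ∉ f →
      ∃ y₁ y₂ : Submodule Λ C, y₁.FG ∧ y₂.FG ∧ y₁ ≤ X ∧ y₂ ≤ X ∧ y₁ ∉ f ∧ y₂ ∉ f ∧
        (∃ c ∈ f, y₁ ≤ x ⊔ c ∧ y₂ ≤ x ⊔ c) ∧ ∀ c ∈ f, (y₁ ⊔ c) ⊓ (y₂ ⊔ c) ∈ f) :
    ∃ (F : Submodule Λ X), Nontrivial (X ⧸ F) ∧ NoUnif Λ (X ⧸ F) ∧
      (∀ x : X, x ∈ F ↔ ∃ K ∈ f, x.1 ∈ K) ∧
      ∀ K : Submodule Λ C, K.FG → (∀ x ∈ K, ∃ K' ∈ f, x ∈ K') → K ∈ f := by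
  -- the ideal as a submodule
  let F : Submodule Λ X :=
    { carrier := {x | ∃ K ∈ f, x.1 ∈ K}
      zero_mem' := ⟨a, ha, a.zero_mem⟩
      add_mem' := by
        rintro x y ⟨K, hK, hx⟩ ⟨K', hK', hy⟩
        exact ⟨K ⊔ K', hsup _ _ hK hK',
          (K ⊔ K').add_mem ((le_sup_left : K ≤ K ⊔ K') hx) ((le_sup_right : K' ≤ K ⊔ K') hy)⟩
      smul_mem' := by
        rintro r x ⟨K, hK, hx⟩
        exact ⟨K, hK, K.smul_mem r hx⟩ }
  have memF : ∀ x : X, x ∈ F ↔ ∃ K ∈ f, x.1 ∈ K := fun x => Iff.rfl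
  -- finitely generated submodules inside F belong to f
  have key : ∀ K : Submodule Λ C, K.FG → (∀ x ∈ K, ∃ K' ∈ f, x ∈ K') → K ∈ f := by
    intro K hK hKf
    obtain ⟨S, hS⟩ := hK
    have hfin : ∀ S' : Finset C, S' ⊆ S → ∃ K' ∈ f, ∀ x ∈ S', x ∈ K' := by
      classical
      intro S'
      induction S' using Finset.induction_on with
      | empty => exact fun _ => ⟨a, ha, fun x hx => absurd hx (Finset.notMem_empty x)⟩
      | insert y S'' hy ih =>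
        intro hsub
        obtain ⟨K1, hK1, h1⟩ := ih (fun z hz => hsub (Finset.mem_insert_of_mem hz))
        have hyK : y ∈ K := by
          rw [← hS]
          exact Submodule.subset_span (hsub (Finset.mem_insert_self y S''))
        obtain ⟨K2, hK2, h2⟩ := hKf y hyK
        refine ⟨K1 ⊔ K2, hsup _ _ hK1 hK2, fun z hz => ?_⟩
        rcases Finset.mem_insert.1 hz with rfl | hz
        · exact (le_sup_right : K2 ≤ K1 ⊔ K2) h2
        · exact (le_sup_left : K1 ≤ K1 ⊔ K2) (h1 z hz)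
    obtain ⟨K', hK', h'⟩ := hfin S subset_rfl
    refine hlow K K' ⟨S, hS⟩ hK' ?_
    rw [← hS, Submodule.span_le]
    exact fun z hz => h' z hz
  refine ⟨F, ?_, ?_, memF, key⟩
  · rw [Submodule.Quotient.nontrivial_iff]
    intro hF
    apply hb
    refine key X hXfg fun x hx => ?_
    have : (⟨x, hx⟩ : X) ∈ F := by rw [hF]; trivial
    exact this
  · intro V hV
    obtain ⟨v, hvV, hv0⟩ := (Submodule.ne_bot_iff V).1 hV
    obtain ⟨x, rfl⟩ := Submodule.Quotient.mk_surjective F v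
    have hxF : x ∉ F := fun h => hv0 ((Submodule.Quotient.mk_eq_zero F).2 h)
    have hspan : Submodule.span Λ {x.1} ∉ f := fun h =>
      hxF ⟨_, h, Submodule.mem_span_singleton_self x.1⟩
    obtain ⟨y₁, y₂, hy1fg, hy2fg, hy1X, hy2X, hy1, hy2, ⟨c, hc, hc1, hc2⟩, hmeet⟩ :=
      hsplit _ (Submodule.fg_span_singleton x.1)
        ((Submodule.span_singleton_le_iff_mem _ _).2 x.2) hspan
    have hle : ∀ y : Submodule Λ C, y ≤ Submodule.span Λ {x.1} ⊔ c →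
        (y.comap X.subtype).map F.mkQ ≤ V := by
      intro y hy
      rintro _ ⟨z, hz, rfl⟩
      have hz' : z.1 ∈ Submodule.span Λ {x.1} ⊔ c := hy hz
      obtain ⟨s, hs, t, ht, hst⟩ := Submodule.mem_sup.1 hz'
      obtain ⟨r, rfl⟩ := Submodule.mem_span_singleton.1 hs
      have htX : t ∈ X := hfX c hc ht
      have hzeq : z = r • x + ⟨t, htX⟩ := Subtype.ext (by simpa using hst.symm)
      have htF : F.mkQ (⟨t, htX⟩ : X) = 0 := by
        rw [Submodule.mkQ_apply, Submodule.Quotient.mk_eq_zero]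
        exact ⟨c, hc, ht⟩
      rw [hzeq, map_add, map_smul, htF, add_zero]
      exact V.smul_mem r hvV
    have hne : ∀ y : Submodule Λ C, y.FG → y ≤ X → y ∉ f →
        (y.comap X.subtype).map F.mkQ ≠ ⊥ := by
      intro y hyfg hyX hyf hbot
      apply hyf
      refine key y hyfg fun z hz => ?_
      have h1 : F.mkQ (⟨z, hyX hz⟩ : X) ∈ (y.comap X.subtype).map F.mkQ :=
        Submodule.mem_map_of_mem (by exact hz)
      rw [hbot, Submodule.mem_bot, Submodule.mkQ_apply, Submodule.Quotient.mk_eq_zero] at h1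
      exact h1
    refine ⟨(y₁.comap X.subtype).map F.mkQ, (y₂.comap X.subtype).map F.mkQ, hle _ hc1, hle _ hc2,
      hne _ hy1fg hy1X hy1, hne _ hy2fg hy2X hy2, ?_⟩
    rw [eq_bot_iff]
    rintro z ⟨⟨p, hp, hpz⟩, ⟨q, hq, hqz⟩⟩
    have hpq : p - q ∈ F := by
      rw [← Submodule.Quotient.eq]
      exact hpz.trans hqz.symm
    obtain ⟨K, hK, hpqK⟩ := hpq
    have hpF : p ∈ F := by
      refine ⟨(y₁ ⊔ K) ⊓ (y₂ ⊔ K), hmeet K hK, ?_, ?_⟩
      · exact (le_sup_left : y₁ ≤ y₁ ⊔ K) hp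
      · have h1 : p.1 = q.1 + (p - q).1 := by simp
        rw [h1]
        exact (y₂ ⊔ K).add_mem ((le_sup_left : y₂ ≤ y₂ ⊔ K) hq)
          ((le_sup_right : K ≤ y₂ ⊔ K) hpqK)
    rw [Submodule.mem_bot, ← hpz, Submodule.mkQ_apply, Submodule.Quotient.mk_eq_zero]
    exact hpF


end Pool.Agent.Helper56.SDD
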