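import Pool.Agent.Helper56.SDD.Split
import Pool.Agent.Helper56.SDD.QuoM
import Pool.Agent.Helper56.SDD.InjM

/-!
# Superdecomposable pure-injective modules from a neutral wide sublattice
-/

namespace Pool.Agent.Helper56.SDD

open Pool.Agent.H35SD MulOpposite

universe u v w

section

variable {S : Type u} [Ring S] (X : Set (PP S × PP S))

theorem le_of_dual {φ ψ : PP S} (h : ψ.dual (CC Sᵐᵒᵖ) ≤ φ.dual (CC Sᵐᵒᵖ)) : Le X φ ψ := by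
  have h1 : (φ.map (RingHom.id S)).le (ψ.map (RingHom.id S)) :=
    le_of_dual_le (RingHom.id S) φ ψ h
  exact Le.of_le h1

theorem dual_le {φ ψ : PP S} (h : ∀ (M : Type u) [AddCommGroup M] [Module S M] (x : M),
    φ.Sat x → ψ.Sat x) : ψ.dual (CC Sᵐᵒᵖ) ≤ φ.dual (CC Sᵐᵒᵖ) := by
  refine dual_le_of_le (RingHom.id S) (AddMonoidHom.id S) (fun a x b => rfl) rfl φ ψ ?_ _
  exact h

end

theorem main {S : Type u} [Ring S] {X : Set (PP S × PP S)} {C₀ D₀ : PP S}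
    {L₀ : Set (PP S)} {n : ℕ} (hn : 1 ≤ n) (hL : ∀ a ∈ L₀, Le X C₀ a ∧ Le X a D₀)
    (hsub : IsSublattice X L₀)
    (hdist : ∀ x, Le X C₀ x → Le X x D₀ → ∀ y : Fin (n + 1) → PP S, (∀ j, y j ∈ L₀) →
      DistribAt X n x y)
    (hw : ∃ P ⊆ L₀, IsWideX X P) :
    ∃ (N : Type u) (_ : AddCommGroup N) (_ : Module S N),
      InX X N ∧ PureInjective S N ∧ Superdecomposable S N := by
  classical
  obtain ⟨I, i1, i2, i3, i4, i5, i6⟩ := exists_splitting hn hL hsub hdist hw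
  let X' : Submodule (Module.End Sᵐᵒᵖ (CC Sᵐᵒᵖ)) (CC Sᵐᵒᵖ) := C₀.dual (CC Sᵐᵒᵖ)
  let f : Set (Submodule (Module.End Sᵐᵒᵖ (CC Sᵐᵒᵖ)) (CC Sᵐᵒᵖ)) :=
    {K | K ≤ X' ∧ ∃ φ : PP S, φ.dual (CC Sᵐᵒᵖ) = K ∧ cl X φ ∈ I}
  have hcl : ∀ {φ ψ : PP S}, ψ.dual (CC Sᵐᵒᵖ) ≤ φ.dual (CC Sᵐᵒᵖ) → cl X ψ ≤ cl X φ :=
    fun h => (cl_le X).2 (le_of_dual X h)
  have hf : ∀ φ : PP S, φ.dual (CC Sᵐᵒᵖ) ∈ f → cl X φ ∈ I := by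
    rintro φ ⟨-, ψ, h1, h2⟩
    exact i1 _ _ h2 (hcl h1.ge)
  have hfX : ∀ K ∈ f, K ≤ X' := fun K hK => hK.1
  have hlow : ∀ x y : Submodule (Module.End Sᵐᵒᵖ (CC Sᵐᵒᵖ)) (CC Sᵐᵒᵖ), x.FG → y ∈ f →
      x ≤ y → x ∈ f := by
    rintro x _ hx ⟨hy, φ, rfl, hφ⟩ hxy
    obtain ⟨χ, rfl⟩ := exists_dual_eq x hx
    exact ⟨hxy.trans hy, χ, rfl, i1 _ _ hφ (hcl hxy)⟩
  have hsup : ∀ x y, x ∈ f → y ∈ f → x ⊔ y ∈ f := by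
    rintro _ _ ⟨hx, φ, rfl, hφ⟩ ⟨hy, ψ, rfl, hψ⟩
    refine ⟨sup_le hx hy, φ.inf ψ, dual_inf _ _ _, ?_⟩
    rw [← cl_sup]
    exact i2 _ _ hφ hψ
  obtain ⟨χ₀, hχ₀⟩ := exists_dual_eq (S := S) ⊥ Submodule.fg_bot
  have hbot : (⊥ : Submodule (Module.End Sᵐᵒᵖ (CC Sᵐᵒᵖ)) (CC Sᵐᵒᵖ)) ∈ f :=
    ⟨bot_le, χ₀, hχ₀, i1 _ _ i4 (hcl (by rw [hχ₀]; exact bot_le))⟩
  have hXf : X' ∉ f := fun h => i5 (hf C₀ h)
  have hinfle : ∀ {ω α β : PP S}, ω.dual (CC Sᵐᵒᵖ) ≤ α.dual (CC Sᵐᵒᵖ) ⊓ β.dual (CC Sᵐᵒᵖ) →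
      cl X ω ≤ cl X α ⊓ cl X β := fun h =>
    le_inf (hcl (h.trans inf_le_left)) (hcl (h.trans inf_le_right))
  have hsplit : ∀ x : Submodule (Module.End Sᵐᵒᵖ (CC Sᵐᵒᵖ)) (CC Sᵐᵒᵖ), x.FG → x ≤ X' →
      x ∉ f → ∃ y₁ y₂ : Submodule (Module.End Sᵐᵒᵖ (CC Sᵐᵒᵖ)) (CC Sᵐᵒᵖ),
        y₁.FG ∧ y₂.FG ∧ y₁ ≤ X' ∧ y₂ ≤ X' ∧ y₁ ∉ f ∧ y₂ ∉ f ∧
        (∃ c ∈ f, y₁ ≤ x ⊔ c ∧ y₂ ≤ x ⊔ c) ∧ ∀ c ∈ f, (y₁ ⊔ c) ⊓ (y₂ ⊔ c) ∈ f := by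
    intro x hx hxX hxf
    obtain ⟨χ, rfl⟩ := exists_dual_eq x hx
    have hχ : cl X χ ∉ I := fun h => hxf ⟨hxX, χ, rfl, h⟩
    obtain ⟨z₁, z₂, hz1, hz2, hz1', hz2', hz⟩ := i6 _ (hcl hxX) hχ
    have hfg : ∀ z : Qt X, ((rp X z).dual (CC Sᵐᵒᵖ) ⊓ χ.dual (CC Sᵐᵒᵖ)).FG := fun z =>
      CC_coherent _ _ _ (dual_fg _) (dual_fg _)
    have hnot : ∀ z : Qt X, z ∉ I → z ≤ cl X χ →
        (rp X z).dual (CC Sᵐᵒᵖ) ⊓ χ.dual (CC Sᵐᵒᵖ) ∉ f := by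
      intro z hz hzx hcon
      obtain ⟨η, hη⟩ := exists_dual_eq _ (hfg z)
      rw [← hη] at hcon
      apply hz
      have h1 := hf η hcon
      refine i1 _ _ h1 ?_
      -- `z = cl (rp z) ⊓ cl χ = cl (psum ..) ≤ cl η`
      have h2 : (psum (rp X z) χ).dual (CC Sᵐᵒᵖ) ≤ η.dual (CC Sᵐᵒᵖ) := by
        rw [hη]
        refine le_inf (dual_le ?_) (dual_le ?_)
        · intro M _ _ v hv
          exact sat_psum.2 ⟨v, 0, hv, sat_zero _, add_zero v⟩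
        · intro M _ _ v hv
          exact sat_psum.2 ⟨0, v, sat_zero _, hv, zero_add v⟩
      have h3 := hcl h2
      rw [← cl_inf, cl_rp, inf_eq_left.2 hzx] at h3
      exact h3
    refine ⟨_, _, hfg z₁, hfg z₂, inf_le_right.trans hxX, inf_le_right.trans hxX,
      hnot z₁ hz1 hz1', hnot z₂ hz2 hz2', ⟨⊥, hbot, ?_, ?_⟩, ?_⟩
    · rw [sup_bot_eq]
      exact inf_le_right
    · rw [sup_bot_eq]
      exact inf_le_right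
    · rintro _ ⟨hc, γ, rfl, hγ⟩
      have h1 : ((rp X z₁).dual (CC Sᵐᵒᵖ) ⊓ χ.dual (CC Sᵐᵒᵖ) ⊔ γ.dual (CC Sᵐᵒᵖ)) ⊓
          ((rp X z₂).dual (CC Sᵐᵒᵖ) ⊓ χ.dual (CC Sᵐᵒᵖ) ⊔ γ.dual (CC Sᵐᵒᵖ)) |>.FG :=
        CC_coherent _ _ _ ((hfg z₁).sup (dual_fg _)) ((hfg z₂).sup (dual_fg _))
      obtain ⟨ω, hω⟩ := exists_dual_eq _ h1
      refine ⟨inf_le_left.trans (sup_le (inf_le_right.trans hxX) hc), ω, hω, ?_⟩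
      refine i1 _ _ (hz _ hγ) ?_
      have h2 : ω.dual (CC Sᵐᵒᵖ) ≤ ((rp X z₁).inf γ).dual (CC Sᵐᵒᵖ) ⊓
          ((rp X z₂).inf γ).dual (CC Sᵐᵒᵖ) := by
        rw [hω, dual_inf, dual_inf]
        exact inf_le_inf (sup_le_sup_right _root_.inf_le_left _)
          (sup_le_sup_right _root_.inf_le_left _)
      have h3 := hinfle h2
      rw [← cl_sup, ← cl_sup, cl_rp, cl_rp] at h3
      exact h3
  obtain ⟨F, hnt, hnu, hmem, hkey⟩ := quo_noUnif_mem X' (dual_fg _) f hfX hlow hsup ⊥ hbot hXf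
    hsplit
  have hε : ∀ q : X' ⧸ F, q ≠ 0 → ∃ j, pr Sᵐᵒᵖ j • q ≠ 0 := by
    intro q hq
    obtain ⟨x, rfl⟩ := Submodule.Quotient.mk_surjective F q
    by_contra hcon
    push Not at hcon
    apply hq
    obtain ⟨F', hF'⟩ := CC_sum Sᵐᵒᵖ (x : CC Sᵐᵒᵖ)
    have h1 : x = ∑ j ∈ F', pr Sᵐᵒᵖ j • x := by
      apply Subtype.ext
      rw [hF' F' subset_rfl, Submodule.coe_sum]
      rfl
    rw [h1]
    change (Submodule.mkQ F) _ = 0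
    rw [map_sum]
    refine Finset.sum_eq_zero fun j _ => ?_
    rw [map_smul]
    exact hcon j
  obtain ⟨W, _, _, i, hW, hi, hess, hpi, hsd⟩ := exists_sd_mem (CC_corner S) (X' ⧸ F) hnu hε
  refine ⟨(CC_corner S).cor W, inferInstance, inferInstance, ?_, hpi, hsd⟩
  rintro ⟨φ, ψ⟩ hσ v hv
  change φ.Sat v at hv
  change ψ.Sat v
  refine sat_of_ann hW ψ v ?_
  intro c hc
  by_contra hne
  obtain ⟨l, q, hlq, hq0⟩ := hess _ hne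
  obtain ⟨x, rfl⟩ := Submodule.Quotient.mk_surjective F q
  have hb : l c ∈ ψ.dual (CC Sᵐᵒᵖ) := (ψ.dual (CC Sᵐᵒᵖ)).smul_mem l hc
  have hbv : cmod_h S (l c) • (v : W) = i (Submodule.Quotient.mk x) := by
    rw [← cmod_mul_h, mul_smul, hlq]
  obtain ⟨χ, ξ, h1, h2, h3⟩ := torsion (φ := φ) (x := x.1) hb
  have hrel : ∀ g : Module.End Sᵐᵒᵖ (CC Sᵐᵒᵖ), g (l c) ∈ φ.dual (CC Sᵐᵒᵖ) → g • x ∈ F := by
    intro g hg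
    have h4 := ann_of_sat φ v hv _ hg
    rw [← cmod_mul_h, mul_smul, hbv, ← map_smul] at h4
    have h5 := hi (h4.trans (map_zero i).symm)
    have h6 : (Submodule.Quotient.mk (g • x) : X' ⧸ F) = 0 := h5
    exact (Submodule.Quotient.mk_eq_zero F).1 h6
  have hχ : χ.dual (CC Sᵐᵒᵖ) ∈ f := by
    refine hkey _ (dual_fg χ) fun y hy => ?_
    obtain ⟨g, hg, rfl⟩ := (h1 y).1 hy
    exact (hmem (g • x)).1 (hrel g hg)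
  have hχI := hf χ hχ
  have hLe : Le X χ ξ := by
    intro M _ _ hM m hm
    exact h3 M (hM (φ, ψ) hσ) m hm
  have hξI : cl X ξ ∈ I := i1 _ _ hχI ((cl_le X).2 hLe)
  have hξX : ξ.dual (CC Sᵐᵒᵖ) ≤ X' := by
    intro y hy
    obtain ⟨g, rfl⟩ := (h2 y).1 hy
    exact X'.smul_mem g x.2
  have hx : x ∈ F := (hmem x).2 ⟨_, ⟨hξX, ξ, rfl, hξI⟩, (h2 _).2 ⟨1, rfl⟩⟩
  exact hq0 ((Submodule.Quotient.mk_eq_zero F).2 hx)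

end Pool.Agent.Helper56.SDD
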