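import Pool.Agent.Helper56.SDD.Ideal

/-!
# Extension of a splitting ideal from a sublattice to a modular lattice, `n`-distributive version
-/

namespace Pool.Agent.Helper56.SDD

universe u

open Finset

/-- Independent families from independent pairs. -/
theorem exists_family {L : Type u} [Lattice L] [IsModularLattice L] [BoundedOrder L]
    (A I₀ : Set L) (hlow : ∀ x y, y ∈ I₀ → x ≤ y → x ∈ I₀)
    (hsup : ∀ x y, x ∈ I₀ → y ∈ I₀ → x ⊔ y ∈ I₀) {a : L} (ha : a ∈ I₀)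
    (hsplit : ∀ x ∈ A, x ∉ I₀ → ∃ y₁ ∈ A, ∃ y₂ ∈ A, y₁ ∉ I₀ ∧ y₂ ∉ I₀ ∧
      (∃ c ∈ I₀, y₁ ≤ x ⊔ c ∧ y₂ ≤ x ⊔ c) ∧ ∀ c ∈ I₀, (y₁ ⊔ c) ⊓ (y₂ ⊔ c) ∈ I₀) (n : ℕ) :
    ∀ x ∈ A, x ∉ I₀ → ∃ t : ℕ → L, (∀ i ≤ n, t i ∈ A ∧ t i ∉ I₀) ∧
      (∃ c ∈ I₀, ∀ i ≤ n, t i ≤ x ⊔ c) ∧
      ∀ c ∈ I₀, (range (n + 1)).inf (fun j => c ⊔ ((range (n + 1)).erase j).sup t) ∈ I₀ := by
  induction n with
  | zero =>
    intro x hx hxI
    refine ⟨fun _ => x, fun _ _ => ⟨hx, hxI⟩, ⟨a, ha, fun _ _ => le_sup_left⟩, fun c hc => ?_⟩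
    refine hlow _ _ hc ?_
    have h1 : (range (0 + 1)).inf (fun j => c ⊔ ((range (0 + 1)).erase j).sup fun _ => x) =
        c ⊔ ((range (0 + 1)).erase 0).sup fun _ => x := by simp
    rw [h1]
    have h2 : ((range (0 + 1)).erase 0) = ∅ := by simp
    rw [h2, Finset.sup_empty, sup_bot_eq]
  | succ n ih =>
    intro x hx hxI
    obtain ⟨y₁, hy₁A, y₂, hy₂A, hy₁, hy₂, ⟨c₀, hc₀, h1, h2⟩, hind⟩ := hsplit x hx hxI
    obtain ⟨t, ht, ⟨c₁, hc₁, ht₁⟩, hti⟩ := ih y₂ hy₂A hy₂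
    let t' : ℕ → L := fun k => Nat.casesOn k y₁ (fun k => t k)
    have ht0 : t' 0 = y₁ := rfl
    have hts : ∀ k, t' (k + 1) = t k := fun k => rfl
    refine ⟨t', ?_, ⟨c₀ ⊔ c₁, hsup _ _ hc₀ hc₁, ?_⟩, ?_⟩
    · intro i hi
      rcases i with _ | i
      · exact ⟨hy₁A, hy₁⟩
      · exact ht i (by omega)
    · intro i hi
      rcases i with _ | i
      · rw [ht0]
        exact h1.trans (sup_le_sup_left le_sup_left x)
      · rw [hts]
        refine (ht₁ i (by omega)).trans (sup_le (h2.trans (sup_le_sup_left le_sup_left x)) ?_)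
        exact le_sup_right.trans le_sup_right
    · intro c hc
      -- enlarge `c`
      let e : L := c ⊔ c₁
      have he : e ∈ I₀ := hsup _ _ hc hc₁
      let g : L := (y₁ ⊔ e) ⊓ (y₂ ⊔ e)
      have hg : g ∈ I₀ := hind e he
      refine hlow _ _ (hti (e ⊔ g) (hsup _ _ he hg)) ?_
      refine Finset.le_inf fun j hj => ?_
      rw [Finset.mem_range] at hj
      have e1 : (range (n + 1 + 1)).inf
          (fun j => c ⊔ ((range (n + 1 + 1)).erase j).sup t') ≤ y₂ ⊔ e := by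
        refine (Finset.inf_le (b := 0) (by simp)).trans ?_
        refine sup_le (le_sup_left.trans le_sup_right) (Finset.sup_le fun k hk => ?_)
        rw [Finset.mem_erase, Finset.mem_range] at hk
        rcases k with _ | k
        · exact absurd rfl hk.1
        · rw [hts]
          exact (ht₁ k (by omega)).trans (sup_le_sup_left le_sup_right y₂)
      have e2 : (range (n + 1 + 1)).inf
          (fun j => c ⊔ ((range (n + 1 + 1)).erase j).sup t') ≤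
            (y₁ ⊔ e) ⊔ ((range (n + 1)).erase j).sup t := by
        refine (Finset.inf_le (b := j + 1) (by rw [Finset.mem_range]; omega)).trans ?_
        refine sup_le ((le_sup_left.trans le_sup_right).trans le_sup_left)
          (Finset.sup_le fun k hk => ?_)
        rw [Finset.mem_erase, Finset.mem_range] at hk
        rcases k with _ | k
        · rw [ht0]
          exact le_sup_left.trans le_sup_left
        · rw [hts]
          refine le_trans ?_ le_sup_right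
          refine Finset.le_sup (f := t) ?_
          rw [Finset.mem_erase, Finset.mem_range]
          exact ⟨fun h => hk.1 (by rw [h]), by omega⟩
      refine (le_inf e2 e1).trans ?_
      have hs : ((range (n + 1)).erase j).sup t ≤ y₂ ⊔ e := by
        refine Finset.sup_le fun k hk => ?_
        rw [Finset.mem_erase, Finset.mem_range] at hk
        exact (ht₁ k (by omega)).trans (sup_le_sup_left le_sup_right y₂)
      have e3 : ((y₁ ⊔ e) ⊔ ((range (n + 1)).erase j).sup t) ⊓ (y₂ ⊔ e) =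
          ((range (n + 1)).erase j).sup t ⊔ (y₁ ⊔ e) ⊓ (y₂ ⊔ e) := by
        rw [sup_comm (y₁ ⊔ e), sup_inf_assoc_of_le _ hs]
      rw [e3]
      exact sup_le le_sup_right (le_sup_right.trans le_sup_left)

theorem sup_mem_of {L : Type u} [Lattice L] [OrderBot L] {A : Set L}
    (hA : ∀ x ∈ A, ∀ y ∈ A, x ⊔ y ∈ A) {ι : Type*} {t : ι → L} {s : Finset ι}
    (hs : s.Nonempty) (h : ∀ i ∈ s, t i ∈ A) : s.sup t ∈ A := by
  classical
  induction hs using Finset.Nonempty.cons_induction with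
  | singleton a =>
    rw [Finset.sup_singleton]
    exact h a (Finset.mem_singleton_self a)
  | cons a s ha hs ih =>
    rw [Finset.sup_cons]
    exact hA _ (h a (Finset.mem_cons_self a s)) _
      (ih fun i hi => h i (Finset.mem_cons_of_mem hi))

theorem ndist_ideal {L : Type u} [Lattice L] [IsModularLattice L] [BoundedOrder L] {n : ℕ}
    (hn : 1 ≤ n) {a₀ b₀ : L} (A f : Set L)
    (hA : ∀ x ∈ A, a₀ ≤ x ∧ x ≤ b₀) (hAsup : ∀ x ∈ A, ∀ y ∈ A, x ⊔ y ∈ A) (hfA : f ⊆ A)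
    (hlow : ∀ x ∈ A, ∀ y ∈ f, x ≤ y → x ∈ f)
    (hsup : ∀ x y, x ∈ f → y ∈ f → x ⊔ y ∈ f)
    {a b : L} (ha : a ∈ f) (hbA : b ∈ A) (hb : b ∉ f)
    (hsplit : ∀ x ∈ A, x ∉ f → ∃ y₁ ∈ A, ∃ y₂ ∈ A, y₁ ∉ f ∧ y₂ ∉ f ∧
      (∃ c ∈ f, y₁ ≤ x ⊔ c ∧ y₂ ≤ x ⊔ c) ∧ ∀ c ∈ f, (y₁ ⊔ c) ⊓ (y₂ ⊔ c) ∈ f)
    (hdist : ∀ u, a₀ ≤ u → u ≤ b₀ → ∀ y : ℕ → L, (∀ i ≤ n, y i ∈ A) →
      (range (n + 1)).inf (fun j => u ⊔ ((range (n + 1)).erase j).inf y) ≤
        u ⊔ (range (n + 1)).inf y) :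
    ∃ I : Set L, (∀ x y, y ∈ I → x ≤ y → x ∈ I) ∧ (∀ x y, x ∈ I → y ∈ I → x ⊔ y ∈ I) ∧
      (∀ x ∈ I, x ≤ b₀) ∧ a₀ ∈ I ∧ b ∉ I ∧
      ∀ x, x ≤ b₀ → x ∉ I → ∃ z₁ z₂, z₁ ∉ I ∧ z₂ ∉ I ∧ z₁ ≤ x ∧ z₂ ≤ x ∧
        ∀ c ∈ I, (z₁ ⊔ c) ⊓ (z₂ ⊔ c) ∈ I := by
  have h₀ : Cand A f b₀ {x | ∃ y ∈ f, x ≤ y} := by
    refine ⟨?_, ?_, ?_, ?_, ?_⟩
    · rintro x y ⟨z, hz, hyz⟩ hxy
      exact ⟨z, hz, hxy.trans hyz⟩
    · rintro x y ⟨z, hz, hxz⟩ ⟨w, hw, hyw⟩
      exact ⟨z ⊔ w, hsup _ _ hz hw, sup_le_sup hxz hyw⟩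
    · rintro x ⟨y, hy, hxy⟩
      exact hxy.trans (hA y (hfA hy)).2
    · intro x hx
      exact ⟨x, hx, le_rfl⟩
    · rintro x hxA ⟨y, hy, hxy⟩
      exact hlow x hxA y hy hxy
  have hnot₀ : ∀ y ∈ A, y ∉ f → y ∉ {x | ∃ y ∈ f, x ≤ y} := fun y hy hyf h =>
    hyf (h₀.int y hy h)
  have hfam := exists_family A {x | ∃ y ∈ f, x ≤ y} h₀.low h₀.sup (h₀.sub ha) (by
    intro x hx hxI
    obtain ⟨y₁, hy₁A, y₂, hy₂A, hy₁, hy₂, ⟨c, hc, hc₁, hc₂⟩, hmeet⟩ :=
      hsplit x hx (fun h => hxI (h₀.sub h))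
    refine ⟨y₁, hy₁A, y₂, hy₂A, hnot₀ _ hy₁A hy₁, hnot₀ _ hy₂A hy₂,
      ⟨c, h₀.sub hc, hc₁, hc₂⟩, ?_⟩
    rintro c' ⟨d, hd, hcd⟩
    exact ⟨_, hmeet d hd, inf_le_inf (sup_le_sup_left hcd _) (sup_le_sup_left hcd _)⟩) n
  obtain ⟨I, hI, hmax⟩ := exists_max h₀
  have hI₀ : ∀ y, y ∈ {x | ∃ y ∈ f, x ≤ y} → y ∈ I := by
    rintro y ⟨z, hz, hyz⟩
    exact hI.low _ _ (hI.sub hz) hyz
  have haI : a₀ ∈ I := hI.low _ _ (hI.sub ha) (hA a (hfA ha)).1
  refine ⟨I, hI.low, hI.sup, hI.le, haI, fun h => hb (hI.int b hbA h), ?_⟩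
  intro x hxb hx
  -- maximality
  obtain ⟨i, hi, l, hlA, hlf, hl⟩ : ∃ i ∈ I, ∃ l ∈ A, l ∉ f ∧ l ≤ x ⊔ i := by
    by_contra hcon
    push Not at hcon
    have hJ : Cand A f b₀ {y | ∃ i ∈ I, y ≤ x ⊔ i} := by
      refine ⟨?_, ?_, ?_, ?_, ?_⟩
      · rintro y z ⟨i, hi, hz⟩ hyz
        exact ⟨i, hi, hyz.trans hz⟩
      · rintro y z ⟨i, hi, hy⟩ ⟨j, hj, hz⟩
        refine ⟨i ⊔ j, hI.sup _ _ hi hj, sup_le (hy.trans ?_) (hz.trans ?_)⟩
        · exact sup_le_sup_left le_sup_left x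
        · exact sup_le_sup_left le_sup_right x
      · rintro y ⟨i, hi, hy⟩
        exact hy.trans (sup_le hxb (hI.le i hi))
      · intro y hy
        exact ⟨y, hI.sub hy, le_sup_right⟩
      · rintro y hyA ⟨i, hi, hy⟩
        by_contra hyf
        exact hcon i hi y hyA hyf hy
    have h1 := hmax _ hJ (fun i hi => ⟨i, hi, le_sup_right⟩)
    apply hx
    rw [← h1]
    exact ⟨a₀, haI, le_sup_left⟩
  obtain ⟨t, ht, ⟨c, hc, htc⟩, hind⟩ := hfam l hlA (hnot₀ l hlA hlf)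
  -- enlarge `i`
  let j : L := i ⊔ c
  have hj : j ∈ I := hI.sup _ _ hi (hI₀ c hc)
  let w : ℕ → L := fun k => x ⊓ (j ⊔ t k)
  have hw : ∀ k ≤ n, w k ∉ I := by
    intro k hk hz
    apply (ht k hk).2
    refine ⟨t k, hI.int _ (ht k hk).1 (hI.low _ _ (hI.sup _ _ hz hj) ?_), le_rfl⟩
    have h1 : (x ⊓ (j ⊔ t k)) ⊔ j = (x ⊔ j) ⊓ (j ⊔ t k) := by
      rw [inf_comm x, inf_sup_assoc_of_le x (le_sup_left : j ≤ j ⊔ t k), inf_comm]
    change t k ≤ (x ⊓ (j ⊔ t k)) ⊔ j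
    rw [h1]
    refine le_inf ((htc k hk).trans (sup_le (hl.trans (sup_le_sup_left le_sup_left x)) ?_))
      le_sup_right
    exact le_sup_right.trans le_sup_right
  by_contra hcon
  push Not at hcon
  -- all finite intersections are not in `I`
  have key : ∀ m ≤ n, ∃ c ∈ I, (range (m + 1)).inf (fun k => w k ⊔ c) ∉ I := by
    intro m
    induction m with
    | zero =>
      intro _
      refine ⟨a₀, haI, fun h => hw 0 (by omega) (hI.low _ _ h ?_)⟩
      refine Finset.le_inf fun k hk => ?_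
      rw [Finset.mem_range] at hk
      have : k = 0 := by omega
      rw [this]
      exact le_sup_left
    | succ m ih =>
      intro hm
      obtain ⟨c, hc, hY⟩ := ih (by omega)
      let Y : L := (range (m + 1)).inf (fun k => w k ⊔ c)
      have hYx : Y ≤ x ⊔ c := (Finset.inf_le (b := 0) (by simp)).trans
        (sup_le_sup_right inf_le_left c)
      have hcY : c ≤ Y := Finset.le_inf fun k _ => le_sup_right
      have hz : x ⊓ Y ∉ I := by
        intro h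
        apply hY
        refine hI.low _ _ (hI.sup _ _ h hc) ?_
        have h1 : (x ⊓ Y) ⊔ c = Y ⊓ (x ⊔ c) := by
          rw [inf_comm x, inf_sup_assoc_of_le x hcY]
        rw [h1]
        exact le_inf le_rfl hYx
      obtain ⟨c₂, hc₂, h2⟩ := hcon _ _ hz (hw (m + 1) hm) inf_le_left inf_le_left
      refine ⟨c ⊔ c₂, hI.sup _ _ hc hc₂, fun h => h2 (hI.low _ _ h ?_)⟩
      refine Finset.le_inf fun k hk => ?_
      rw [Finset.mem_range] at hk
      rcases Nat.lt_or_ge k (m + 1) with hk' | hk'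
      · refine inf_le_left.trans (sup_le ?_ (le_sup_right.trans le_sup_right))
        refine (inf_le_right.trans (Finset.inf_le (b := k) (by rw [Finset.mem_range]; omega))).trans
          ?_
        exact sup_le_sup_left le_sup_left _
      · have : k = m + 1 := by omega
        rw [this]
        exact inf_le_right.trans (sup_le_sup_left le_sup_right _)
  obtain ⟨c', hc', hinf⟩ := key n le_rfl
  apply hinf
  let u : L := a₀ ⊔ (j ⊔ c')
  have hu : u ∈ I := hI.sup _ _ haI (hI.sup _ _ hj hc')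
  let y : ℕ → L := fun i => ((range (n + 1)).erase i).sup t
  have hy : ∀ i ≤ n, y i ∈ A := by
    intro i _
    refine sup_mem_of hAsup ?_ ?_
    · by_cases h0 : i = 0
      · exact ⟨1, by rw [Finset.mem_erase, Finset.mem_range]; omega⟩
      · exact ⟨0, by rw [Finset.mem_erase, Finset.mem_range]; omega⟩
    · intro k hk
      rw [Finset.mem_erase, Finset.mem_range] at hk
      exact (ht k (by omega)).1
  have h1 := hdist u le_sup_left (hI.le u hu) y hy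
  refine hI.low _ _ ?_ (le_trans ?_ h1)
  · refine hI.sup _ _ hu (hI.low _ _ (hI₀ _ (hind a (h₀.sub ha))) ?_)
    exact Finset.le_inf fun k hk => (Finset.inf_le hk).trans le_sup_right
  · refine Finset.le_inf fun k hk => (Finset.inf_le hk).trans ?_
    rw [Finset.mem_range] at hk
    refine sup_le (inf_le_right.trans (sup_le ?_ ?_)) ?_
    · exact (le_sup_left.trans le_sup_right).trans le_sup_left
    · refine le_trans (Finset.le_inf fun i hi => ?_) le_sup_right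
      rw [Finset.mem_erase, Finset.mem_range] at hi
      refine Finset.le_sup (f := t) ?_
      rw [Finset.mem_erase, Finset.mem_range]
      exact ⟨fun h => hi.1 h.symm, hk⟩
    · exact (le_sup_right.trans le_sup_right).trans le_sup_left

end Pool.Agent.Helper56.SDD
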