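import Pool.Agent.Helper56.SDD.NIdeal
import Pool.Agent.Helper56.SDD.Lat

/-!
# A splitting ideal of the lattice of pp conditions
-/

namespace Pool.Agent.Helper56.SDD

open Pool.Agent.H35SD MulOpposite

universe u v w

theorem exists_branching {S : Type u} [Ring S] {X : Set (PP S × PP S)} {P : Set (PP S)}
    (hP : IsWideX X P) : ∃ P' ⊆ P, P'.Countable ∧ (∃ φ ∈ P', ∃ ψ ∈ P', Lt X ψ φ) ∧
      ∀ φ ∈ P', ∀ ψ ∈ P', Lt X ψ φ → ∃ t : Fin 4 → PP S, (∀ i, t i ∈ P') ∧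
        (Lt X ψ (t 0) ∧ Lt X (t 0) φ) ∧ (Lt X ψ (t 1) ∧ Lt X (t 1) φ) ∧
        (Lt X (t 2) (t 0) ∧ InfLe X (t 0) (t 1) (t 2)) ∧
        (Lt X (t 3) (t 1) ∧ InfLe X (t 0) (t 1) (t 3)) := by
  classical
  obtain ⟨⟨φ₀, hφ₀, ψ₀, hψ₀, h0⟩, hw⟩ := hP
  have key : ∀ φ ψ : PP S, ∃ t : Fin 4 → PP S, (φ ∈ P → ψ ∈ P → ∀ i, t i ∈ P) ∧
      (φ ∈ P → ψ ∈ P → Lt X ψ φ → (Lt X ψ (t 0) ∧ Lt X (t 0) φ) ∧
        (Lt X ψ (t 1) ∧ Lt X (t 1) φ) ∧ (Lt X (t 2) (t 0) ∧ InfLe X (t 0) (t 1) (t 2)) ∧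
        (Lt X (t 3) (t 1) ∧ InfLe X (t 0) (t 1) (t 3))) := by
    intro φ ψ
    by_cases h : φ ∈ P ∧ ψ ∈ P ∧ Lt X ψ φ
    · obtain ⟨t₁, h1, t₂, h2, t₁₁, h3, t₁₂, h4, t₂₁, h5, t₂₂, h6, -, h7, h8,
        ⟨-, -, h9, h10⟩, ⟨-, -, h11, h12⟩⟩ := hw φ h.1 ψ h.2.1 h.2.2
      refine ⟨![t₁, t₂, t₁₂, t₂₂], fun _ _ i => ?_, fun _ _ _ => ?_⟩
      · fin_cases i
        exacts [h1, h2, h4, h6]
      · exact ⟨h7, h8, ⟨h9, h10⟩, ⟨h11, h12⟩⟩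
    · exact ⟨fun _ => φ, fun h1 _ _ => h1, fun h1 h2 h3 => (h ⟨h1, h2, h3⟩).elim⟩
  choose g hg1 hg2 using key
  obtain ⟨P', hB, hP', hc, hcl⟩ := exists_cc P g (fun a ha b hb i => hg1 a b ha hb i)
    (B := {φ₀, ψ₀}) (by
      rintro x (rfl | rfl)
      exacts [hφ₀, hψ₀]) (Set.toFinite _).countable
  refine ⟨P', hP', hc, ⟨φ₀, hB (Or.inl rfl), ψ₀, hB (Or.inr rfl), h0⟩, ?_⟩
  intro φ hφ ψ hψ hlt
  exact ⟨g φ ψ, hcl φ hφ ψ hψ, hg2 φ ψ (hP' hφ) (hP' hψ) hlt⟩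

theorem distrib_cl {S : Type u} [Ring S] (X : Set (PP S × PP S)) {n : ℕ} {x : PP S}
    {y : ℕ → PP S} (h : DistribAt X n x (fun j => y j)) :
    (Finset.range (n + 1)).inf (fun j => cl X x ⊔
        ((Finset.range (n + 1)).erase j).inf (fun i => cl X (y i))) ≤
      cl X x ⊔ (Finset.range (n + 1)).inf (fun i => cl X (y i)) := by
  classical
  have h1 : ∀ j, ∃ φ : PP S,
      cl X φ = ((Finset.range (n + 1)).erase j).inf (fun i => cl X (y i)) ∧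
      ∀ (M : Type u) [AddCommGroup M] [Module S M] (x : M), φ.Sat x ↔
        ∃ p : ℕ → M, (∀ i ∈ (Finset.range (n + 1)).erase j, (y i).Sat (p i)) ∧
          ∑ i ∈ (Finset.range (n + 1)).erase j, p i = x := fun j => exists_fsum X y _
  choose φ hφ hφ' using h1
  obtain ⟨ψ, hψ, hψ'⟩ := exists_fsum X y (Finset.range (n + 1))
  obtain ⟨χ, hχ, hχ'⟩ := exists_fsum X (fun j => x.inf (φ j)) (Finset.range (n + 1))
  have e1 : (Finset.range (n + 1)).inf (fun j => cl X x ⊔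
      ((Finset.range (n + 1)).erase j).inf (fun i => cl X (y i))) = cl X χ := by
    rw [hχ]
    refine Finset.inf_congr rfl fun j _ => ?_
    rw [← hφ, cl_sup]
  rw [e1, ← hψ, cl_sup, cl_le]
  intro M _ _ hM v hv
  obtain ⟨hv1, hv2⟩ := sat_inf.1 hv
  obtain ⟨p, hp, rfl⟩ := (hψ' M v).1 hv2
  obtain ⟨r, hr1, hr2, hr3, hr4⟩ := h M hM (fun j => p j)
    (fun j => hp j (Finset.mem_range.2 j.2)) (by
      rw [Finset.sum_range] at hv1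
      exact hv1)
  rw [hχ' M]
  let g : Fin (n + 1) → ℕ → M := fun i j => if h : j < n + 1 then r i ⟨j, h⟩ else 0
  have hg : ∀ (i : Fin (n + 1)) (j : ℕ) (h : j < n + 1), g i j = r i ⟨j, h⟩ := fun i j h =>
    dif_pos h
  have hsum : ∀ i : Fin (n + 1), ∑ j ∈ (Finset.range (n + 1)).erase i.1, g i j =
      ∑ j, r i j := by
    intro i
    have h2 : g i i.1 = 0 := by
      rw [hg i i.1 i.2]
      exact hr2 i
    rw [Finset.sum_erase _ h2, Finset.sum_range]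
    exact Finset.sum_congr rfl fun j _ => hg i j j.2
  let q : ℕ → M := fun i => if h : i < n + 1 then ∑ j, r ⟨i, h⟩ j else 0
  have hq : ∀ (i : ℕ) (h : i < n + 1), q i = ∑ j, r ⟨i, h⟩ j := fun i h => dif_pos h
  refine ⟨q, ?_, ?_⟩
  · intro i hi
    rw [Finset.mem_range] at hi
    rw [hq i hi, sat_inf]
    refine ⟨hr3 _, (hφ' i M _).2 ⟨g ⟨i, hi⟩, ?_, hsum ⟨i, hi⟩⟩⟩
    intro j hj
    rw [Finset.mem_erase, Finset.mem_range] at hj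
    rw [hg _ j hj.2]
    exact hr1 ⟨i, hi⟩ ⟨j, hj.2⟩
  · rw [Finset.sum_range, Finset.sum_range]
    rw [Finset.sum_congr rfl fun i _ => hq i.1 i.2]
    exact hr4

theorem exists_splitting {S : Type u} [Ring S] {X : Set (PP S × PP S)} {C₀ D₀ : PP S}
    {L₀ : Set (PP S)} {n : ℕ} (hn : 1 ≤ n) (hL : ∀ a ∈ L₀, Le X C₀ a ∧ Le X a D₀) (hsub : IsSublattice X L₀)
    (hdist : ∀ x, Le X C₀ x → Le X x D₀ → ∀ y : Fin (n + 1) → PP S, (∀ j, y j ∈ L₀) →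
      DistribAt X n x y)
    (hw : ∃ P ⊆ L₀, IsWideX X P) :
    ∃ I : Set (Qt X), (∀ x y, y ∈ I → x ≤ y → x ∈ I) ∧ (∀ x y, x ∈ I → y ∈ I → x ⊔ y ∈ I) ∧
      (∀ x ∈ I, x ≤ cl X C₀) ∧ cl X D₀ ∈ I ∧ cl X C₀ ∉ I ∧
      ∀ x, x ≤ cl X C₀ → x ∉ I → ∃ z₁ z₂, z₁ ∉ I ∧ z₂ ∉ I ∧ z₁ ≤ x ∧ z₂ ≤ x ∧
        ∀ c ∈ I, (z₁ ⊔ c) ⊓ (z₂ ⊔ c) ∈ I := by
  classical
  obtain ⟨P, hPL, hP⟩ := hw
  obtain ⟨P', hP'P, hP'c, ⟨φ₀, hφ₀, ψ₀, hψ₀, h0⟩, hbr⟩ := exists_branching hP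
  -- the sublattice of classes
  let E : Set (Qt X) := cl X '' L₀
  have hEsup : ∀ x ∈ E, ∀ y ∈ E, x ⊔ y ∈ E := by
    rintro _ ⟨a, ha, rfl⟩ _ ⟨b, hb, rfl⟩
    obtain ⟨⟨c, hc, h1, h2, h3⟩, -⟩ := hsub a ha b hb
    refine ⟨c, hc, ?_⟩
    rw [cl_sup]
    apply le_antisymm
    · refine (cl_le X).2 ?_
      exact fun M _ _ hM x hx => h3 M hM x (sat_inf.1 hx).1 (sat_inf.1 hx).2
    · exact (cl_le X).2 (le_pinf X h1 h2)
  have hEinf : ∀ x ∈ E, ∀ y ∈ E, x ⊓ y ∈ E := by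
    rintro _ ⟨a, ha, rfl⟩ _ ⟨b, hb, rfl⟩
    obtain ⟨-, c, hc, h1, h2, h3⟩ := hsub a ha b hb
    refine ⟨c, hc, ?_⟩
    rw [cl_inf]
    apply le_antisymm
    · exact (cl_le X).2 (psum_le X h1 h2)
    · refine (cl_le X).2 ?_
      exact fun M _ _ hM x hx => sat_psum.2 (h3 M hM x hx)
  -- the countable wide set as a preorder
  let PF : Set (Fm X) := P'
  let T : Type u := PF
  let fo : T → PP S := fun x => x.1
  have hTlt : ∀ x y : T, x < y ↔ Lt X (y.1 : PP S) x.1 := fun x y => Iff.rfl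
  let J : T → T → T → Prop := fun t₁ t₂ w => InfLe X (t₁.1 : PP S) t₂.1 w.1
  have hT : Branching J := by
    intro a b hab
    obtain ⟨t, ht, ⟨a1, a2⟩, ⟨b1, b2⟩, ⟨c1, c2⟩, ⟨d1, d2⟩⟩ := hbr a.1 a.2 b.1 b.2 hab
    refine ⟨⟨t 0, ht 0⟩, ⟨t 1, ht 1⟩, ⟨t 2, ht 2⟩, ⟨t 3, ht 3⟩, a2.1, b2.1, c1, d1,
      ?_, ?_, c2, d2⟩
    · exact fun M _ _ hM x hx => c2 M hM x (a1.1 M hM x hx) (b1.1 M hM x hx)
    · exact fun M _ _ hM x hx => d2 M hM x (a1.1 M hM x hx) (b1.1 M hM x hx)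
  let μ : T → Qt X := fun x => cl X (fo x)
  have hμmono : ∀ x y : T, x ≤ y → μ x ≤ μ y := fun x y h => (cl_le X).2 h
  have hμstrict : ∀ x y : T, x < y → μ x < μ y := by
    intro x y h
    refine lt_of_le_not_ge (hμmono x y h.le) fun h' => ?_
    exact h.2 ((cl_le X).1 h')
  have hμjoin : ∀ t₁ t₂ w : T, J t₁ t₂ w → μ w ≤ μ t₁ ⊔ μ t₂ := by
    intro t₁ t₂ w hJ
    change cl X (fo w) ≤ cl X (fo t₁) ⊔ cl X (fo t₂)
    rw [cl_sup, cl_le]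
    exact fun M _ _ hM x hx => hJ M hM x (sat_inf.1 hx).1 (sat_inf.1 hx).2
  let a : T := ⟨φ₀, hφ₀⟩
  let b : T := ⟨ψ₀, hψ₀⟩
  have hab : a < b := h0
  -- the countable sublattice
  obtain ⟨A, hBA, hAE, hAc, hAcl⟩ := exists_cc E (fun x y => ![x ⊔ y, x ⊓ y])
    (by
      intro x hx y hy i
      fin_cases i
      · exact hEsup x hx y hy
      · exact hEinf x hx y hy)
    (B := Set.range μ) (by
      rintro _ ⟨x, rfl⟩
      exact ⟨x.1, hPL (hP'P x.2), rfl⟩)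
    (by
      have : Countable T := hP'c.to_subtype
      exact Set.countable_range _)
  have hAsup : ∀ x ∈ A, ∀ y ∈ A, x ⊔ y ∈ A := fun x hx y hy => hAcl x hx y hy 0
  have hAinf : ∀ x ∈ A, ∀ y ∈ A, x ⊓ y ∈ A := fun x hx y hy => hAcl x hx y hy 1
  have hμA : ∀ x, μ x ∈ A := fun x => hBA ⟨x, rfl⟩
  have hAint : ∀ x ∈ A, cl X D₀ ≤ x ∧ x ≤ cl X C₀ := by
    intro x hx
    obtain ⟨c, hc, rfl⟩ := hAE hx
    exact ⟨(cl_le X).2 (hL c hc).2, (cl_le X).2 (hL c hc).1⟩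
  -- the countable lattice with top
  let β : Qt X := μ b
  let Lc : Type u := {x : Qt X // x ∈ A ∧ x ≤ β}
  let _ : Lattice Lc := Subtype.lattice (P := fun x : Qt X => x ∈ A ∧ x ≤ β)
    (fun {_ _} h1 h2 => ⟨hAsup _ h1.1 _ h2.1, sup_le h1.2 h2.2⟩)
    (fun {_ _} h1 h2 => ⟨hAinf _ h1.1 _ h2.1, inf_le_of_left_le h1.2⟩)
  have hle : ∀ x y : Lc, x ≤ y ↔ x.1 ≤ y.1 := fun x y => Iff.rfl
  have hlt : ∀ x y : Lc, x < y ↔ x.1 < y.1 := fun x y => Iff.rfl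
  have hsup : ∀ x y : Lc, (x ⊔ y).1 = x.1 ⊔ y.1 := fun x y => rfl
  have hinf : ∀ x y : Lc, (x ⊓ y).1 = x.1 ⊓ y.1 := fun x y => rfl
  have _ : IsModularLattice Lc := ⟨by
    intro x y z hxz
    rw [hle, hinf, hsup, hsup, hinf]
    exact IsModularLattice.sup_inf_le_assoc_of_le y.1 hxz⟩
  let _ : OrderTop Lc :=
    { top := ⟨β, hμA b, le_rfl⟩
      le_top := fun x => x.2.2 }
  have _ : Countable Lc := by
    have : Countable A := hAc.to_subtype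
    exact Function.Injective.countable (f := fun x : Lc => (⟨x.1, x.2.1⟩ : A))
      (fun x y h => Subtype.ext (congrArg (fun t : A => t.1) h))
  let ν : T → Lc := fun x => ⟨μ x ⊓ β, hAinf _ (hμA x) _ (hμA b), inf_le_right⟩
  have hν : ∀ x, x ≤ b → (ν x).1 = μ x := fun x hxb => inf_eq_left.2 (hμmono x b hxb)
  have hgood : Good J ν a b := by
    refine ⟨fun x y hax hxy hyb => ?_, fun x y hax hxy hyb => ?_,
      fun t₁ t₂ w h1 h2 h3 h4 h5 h6 hJ => ?_⟩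
    · rw [hle, hν x (hxy.trans hyb), hν y hyb]
      exact hμmono x y hxy
    · rw [hlt, hν x (hxy.le.trans hyb), hν y hyb]
      exact hμstrict x y hxy
    · rw [hle, hsup, hν w h6, hν t₁ h2, hν t₂ h4]
      exact hμjoin t₁ t₂ w hJ
  have hbig : Big J (ν a) (ν b) := ⟨a, b, hab, ν, hgood, le_rfl, le_rfl⟩
  obtain ⟨f, f1, f2, f3, f4, f5⟩ := generic_ideal (big_rel hT) hbig
  have hνb : (ν b).1 = β := hν b le_rfl
  -- extension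
  obtain ⟨I, i1, i2, i3, i4, i5, i6⟩ := ndist_ideal hn (a₀ := cl X D₀) (b₀ := cl X C₀)
    {x | x ∈ A ∧ x ≤ β} (Subtype.val '' f) (fun x hx => hAint x hx.1)
    (fun x hx y hy => ⟨hAsup x hx.1 y hy.1, sup_le hx.2 hy.2⟩)
    (by rintro _ ⟨x, -, rfl⟩; exact x.2)
    (by
      rintro x hx _ ⟨y, hy, rfl⟩ hxy
      exact ⟨⟨x, hx⟩, f1 _ _ hy hxy, rfl⟩)
    (by
      rintro _ _ ⟨x, hx, rfl⟩ ⟨y, hy, rfl⟩
      exact ⟨_, f2 _ _ hx hy, rfl⟩)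
    (a := (ν a).1) (b := (ν b).1) ⟨ν a, f3, rfl⟩ (ν b).2
    (by
      rintro ⟨y, hy, he⟩
      exact f4 (Subtype.ext he ▸ hy))
    (by
      intro x hx hxf
      obtain ⟨y₁, y₂, h1, h2, ⟨c, hc, hc1, hc2⟩, h3⟩ := f5 ⟨x, hx⟩ (fun h => hxf ⟨_, h, rfl⟩)
      refine ⟨y₁.1, y₁.2, y₂.1, y₂.2, ?_, ?_, ⟨c.1, ⟨c, hc, rfl⟩, hc1, hc2⟩, ?_⟩
      · rintro ⟨y, hy, he⟩
        exact h1 (Subtype.ext he ▸ hy)
      · rintro ⟨y, hy, he⟩
        exact h2 (Subtype.ext he ▸ hy)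
      · rintro _ ⟨c', hc', rfl⟩
        exact ⟨_, h3 c' hc', rfl⟩)
    (by
      intro u hu1 hu2 y hy
      have hy' : ∀ i, ∃ c : PP S, i ≤ n → c ∈ L₀ ∧ cl X c = y i := by
        intro i
        by_cases hi : i ≤ n
        · obtain ⟨c, hc, he⟩ := hAE (hy i hi).1
          exact ⟨c, fun _ => ⟨hc, he⟩⟩
        · exact ⟨C₀, fun h => absurd h hi⟩
      choose c hc using hy'
      rw [← cl_rp X u] at hu1 hu2 ⊢
      have h1 := distrib_cl X (hdist _ ((cl_le X).1 hu2) ((cl_le X).1 hu1) (fun j => c j)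
        (fun j => (hc j (by omega)).1))
      have h2 : (Finset.range (n + 1)).inf (fun i => cl X (c i)) =
          (Finset.range (n + 1)).inf y := by
        refine Finset.inf_congr rfl fun i hi => ?_
        rw [Finset.mem_range] at hi
        exact (hc i (by omega)).2
      have h3 : ∀ j, ((Finset.range (n + 1)).erase j).inf (fun i => cl X (c i)) =
          ((Finset.range (n + 1)).erase j).inf y := by
        intro j
        refine Finset.inf_congr rfl fun i hi => ?_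
        rw [Finset.mem_erase, Finset.mem_range] at hi
        exact (hc i (by omega)).2
      simp only [h2, h3] at h1
      exact h1)
  refine ⟨I, i1, i2, i3, i4, fun h => i5 (i1 _ _ h ?_), i6⟩
  rw [hνb]
  exact (hAint _ (hμA b)).2

end Pool.Agent.Helper56.SDD
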